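import Mathlib

/-!
Constant-depth Frege systems with `MOD p` gates: formulas, their depth and subformulas, local
inferences, and refutations of the counting principle modulo `q`.
-/

set_option linter.unusedSectionVars false

namespace Pool.Agent.Helper600R2.Cnt

open Finset

/-- Formulas over the variables `α` with negation, disjunction of any finite number of formulas,
and, for each residue `i` modulo `p`, the connective `md i` of any finite number of formulas,
which says that the number of its true arguments is `i` modulo `p`. -/
inductive Fm (p : ℕ) (α : Type) : Type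
  | var (a : α) : Fm p α
  | neg (φ : Fm p α) : Fm p α
  | or (t : ℕ) (φs : Fin t → Fm p α) : Fm p α
  | md (i : ZMod p) (t : ℕ) (φs : Fin t → Fm p α) : Fm p α

variable {p : ℕ} {α : Type}

/-- Depth: the maximal nesting of connectives. -/
def Fm.depth : Fm p α → ℕ
  | .var _ => 0
  | .neg φ => φ.depth + 1
  | .or _ φs => univ.sup (fun j => (φs j).depth) + 1
  | .md _ _ φs => univ.sup (fun j => (φs j).depth) + 1

open Classical in
/-- The set of all subformulas. -/
noncomputable def Fm.sub : Fm p α → Finset (Fm p α)
  | .var a => {.var a}
  | .neg φ => insert (.neg φ) φ.sub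
  | .or t φs => insert (.or t φs) (univ.biUnion (fun j => (φs j).sub))
  | .md i t φs => insert (.md i t φs) (univ.biUnion (fun j => (φs j).sub))

open Classical in
/-- The set of the maximal subformulas that begin with a `md` connective. -/
noncomputable def Fm.tops : Fm p α → Finset (Fm p α)
  | .var _ => ∅
  | .neg φ => φ.tops
  | .or _ φs => univ.biUnion (fun j => (φs j).tops)
  | .md i t φs => {.md i t φs}

/-- `V` assigns truth values to formulas so that all `md` connectives are respected. -/
def RespMod (V : Fm p α → Bool) : Prop :=
  ∀ i t (φs : Fin t → Fm p α),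
    V (.md i t φs) = decide ((∑ j, if V (φs j) = true then (1 : ZMod p) else 0) = i)

/-- `V` respects the outermost connective of the given formula, if it is `neg` or `or`. -/
def RespAt (V : Fm p α → Bool) : Fm p α → Prop
  | .var _ => True
  | .neg φ => V (.neg φ) = !(V φ)
  | .or t φs => V (.or t φs) = true ↔ ∃ j, V (φs j) = true
  | .md _ _ _ => True

/-- The variables of the counting principle: the `q`-element subsets of `Fin N`. -/
abbrev Var (q N : ℕ) : Type := {e : Finset (Fin N) // e.card = q}

/-- `φ` is a disjunction that contains all literals of a clause of the counting principle: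
either the variables `e ∋ v` for an element `v`, or the negations of two variables `e ≠ f` with
`e ∩ f ≠ ∅`. -/
def IsAxiom {q N : ℕ} (φ : Fm p (Var q N)) : Prop :=
  ∃ (t : ℕ) (φs : Fin t → Fm p (Var q N)), φ = .or t φs ∧
    ((∃ v : Fin N, ∀ e : Var q N, v ∈ e.1 → ∃ j, φs j = .var e) ∨
      (∃ e f : Var q N, e ≠ f ∧ ¬ Disjoint e.1 f.1 ∧
        (∃ j, φs j = .neg (.var e)) ∧ ∃ j, φs j = .neg (.var f)))

open Classical in
/-- All subformulas of the lines. -/
noncomputable def allSub {T : ℕ} (L : Fin T → Fm p α) : Finset (Fm p α) :=
  univ.biUnion (fun i => (L i).sub)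

/-- Line `i` follows by a `c`-local inference: there are at most `c` earlier lines and at most `c`
subformulas `Q` of the lines such that the implication from these earlier lines to line `i` only
depends on the meaning of the `md` connectives and of the outermost connectives of the formulas
in `Q`. -/
def LocalInf (c : ℕ) {T : ℕ} (L : Fin T → Fm p α) (i : Fin T) : Prop :=
  ∃ (P : Finset (Fin T)) (Q : Finset (Fm p α)), P.card ≤ c ∧ Q.card ≤ c ∧ (∀ j ∈ P, j < i) ∧
    Q ⊆ allSub L ∧
    ∀ V : Fm p α → Bool, RespMod V → (∀ χ ∈ Q, RespAt V χ) → (∀ j ∈ P, V (L j) = true) →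
      V (L i) = true

/-- `L` is a refutation of the counting principle: some line is the empty disjunction, and every
line is an axiom or follows by a `c`-local inference. -/
def IsRefutation (c : ℕ) {q N T : ℕ} (L : Fin T → Fm p (Var q N)) : Prop :=
  (∃ i f, L i = .or 0 f) ∧ ∀ i, IsAxiom (L i) ∨ LocalInf c L i

end Pool.Agent.Helper600R2.Cnt
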