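import Pool.Agent.Helper600R2.Cnt.Embed

/-!
Degrees of decision trees over the partial partitions given by edge values.
-/

set_option linter.unusedSectionVars false

namespace Pool.Agent.Helper600R2.Cnt

open Finset Pool.Agent.Helper600R2

section

variable {Vt E : Type} [Fintype Vt] [Fintype E] [DecidableEq Vt] [DecidableEq E]
  {hd tl : E → Vt} {q : ℕ} [NeZero q] {K : Type*} [Field K] {ψ : AddChar (ZMod q) K}
  {b : Vt → ZMod q} {N : ℕ} {ρ : PS N} {y : (E → ZMod q) → PS N}

lemma Good.mt_local (hG : Good hd tl ψ b N ρ y) (X : Finset (Fin N)) :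
    ∃ I : Finset E, I.card ≤ 4 * X.card ∧ ∀ z z' : E → ZMod q, (∀ e ∈ I, z e = z' e) →
      mt X (y z) = mt X (y z') ∧ (X ⊆ cov (y z) ↔ X ⊆ cov (y z')) := by
  classical
  choose I hI1 hI2 using hG.loc
  refine ⟨X.biUnion I, ?_, ?_⟩
  · refine card_biUnion_le.trans ?_
    refine (Finset.sum_le_sum (fun u _ => hI1 u)).trans ?_
    simp [mul_comm]
  · intro z z' h
    have h1 : ∀ u ∈ X, ∀ B, (B ∈ y z ∧ u ∈ B) ↔ (B ∈ y z' ∧ u ∈ B) := by
      intro u hu B
      exact hI2 u z z' (fun e he => h e (mem_biUnion.mpr ⟨u, hu, he⟩)) B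
    constructor
    · ext B
      rw [mem_mt, mem_mt]
      constructor
      · rintro ⟨hB, x, hx, hxB⟩
        exact ⟨((h1 x hx B).mp ⟨hB, hxB⟩).1, x, hx, hxB⟩
      · rintro ⟨hB, x, hx, hxB⟩
        exact ⟨((h1 x hx B).mpr ⟨hB, hxB⟩).1, x, hx, hxB⟩
    · constructor
      · intro hc u hu
        obtain ⟨B, hB⟩ := mem_cov.mp (hc hu)
        exact mem_cov.mpr ⟨B, (h1 u hu B).mp hB⟩
      · intro hc u hu
        obtain ⟨B, hB⟩ := mem_cov.mp (hc hu)
        exact mem_cov.mpr ⟨B, (h1 u hu B).mpr hB⟩

lemma Good.branch_deg (hG : Good hd tl ψ b N ρ y) (X : Finset (Fin N)) (π : PS N) :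
    toK K (fun z => decide (X ⊆ cov (y z) ∧ mt X (y z) = π)) ∈
      J (ι := E) (α := ZMod q) K (4 * X.card) := by
  obtain ⟨I, hI1, hI2⟩ := hG.mt_local X
  refine junta_mem I hI1 ?_
  intro z z' hzz
  obtain ⟨h1, h2⟩ := hI2 z z' hzz
  simp only [toK, decide_eq_true_eq, h1, h2]

lemma Good.cov_deg (hG : Good hd tl ψ b N ρ y) (X : Finset (Fin N)) :
    toK K (fun z => decide (X ⊆ cov (y z))) ∈
      J (ι := E) (α := ZMod q) K (4 * X.card) := by
  obtain ⟨I, hI1, hI2⟩ := hG.mt_local X
  refine junta_mem I hI1 ?_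
  intro z z' hzz
  obtain ⟨h1, h2⟩ := hI2 z z' hzz
  simp only [toK, decide_eq_true_eq, h2]

lemma Good.tree_deg (hG : Good hd tl ψ b N ρ y) {β : Type} (g : β → Prop) (T : DT N β) :
    ∀ k : ℕ, T.HtLe k →
    toK K (fun z => open Classical in decide (∃ x, T.eval (y z) = some x ∧ g x)) ∈
      J (ι := E) (α := ZMod q) K (4 * k) := by
  classical
  induction T with
  | leaf x =>
    intro k _
    have h1 : toK K (fun z => decide (∃ x', (DT.leaf x).eval (y z) = some x' ∧ g x')) =
        fun _ => if g x then (1 : K) else 0 := by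
      funext z
      simp [toK, DT.eval]
    rw [h1]
    exact J_const _ _
  | node X ch ih =>
    rintro k ⟨k', h1, h2⟩
    have h3 : toK K (fun z => decide (∃ x', (DT.node X ch).eval (y z) = some x' ∧ g x')) =
        ∑ π : PS N, toK K (fun z => decide (X ⊆ cov (y z) ∧ mt X (y z) = π)) *
          toK K (fun z => decide (∃ x', (ch π).eval (y z) = some x' ∧ g x')) := by
      funext z
      rw [Finset.sum_apply]
      by_cases hX : X ⊆ cov (y z)
      · rw [Finset.sum_eq_single (mt X (y z))]
        · simp only [Pi.mul_apply, toK, DT.eval, if_pos hX]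
          simp [hX]
        · intro π _ hπ
          have : ¬ (mt X (y z) = π) := fun h => hπ h.symm
          simp [toK, this]
        · intro h; exact absurd (mem_univ _) h
      · rw [Finset.sum_eq_zero]
        · simp [toK, DT.eval, hX]
        · intro π _
          simp [toK, hX]
    rw [h3]
    refine Submodule.sum_mem _ (fun π _ => ?_)
    exact J_mono (by omega) (J_mul (hG.branch_deg X π) (ih π k' (h2 π)))

lemma Good.notcov_null (hψ : ψ.IsPrimitive) (hqK : (q : K) ≠ 0) (hG : Good hd tl ψ b N ρ y)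
    (X : Finset (Fin N)) :
    toK K (fun z => decide (¬ X ⊆ cov (y z))) ∈ NF hd tl ψ b (4 * X.card + 8) := by
  classical
  induction X using Finset.induction_on with
  | empty =>
    have h1 : toK K (fun z => decide (¬ (∅ : Finset (Fin N)) ⊆ cov (y z))) = 0 := by
      funext z
      simp [toK]
    rw [h1]
    exact Submodule.zero_mem _
  | insert a X ha ih =>
    have h1 : toK K (fun z => decide (¬ insert a X ⊆ cov (y z))) =
        toK K (fun z => decide (¬ X ⊆ cov (y z))) +
        toK K (fun z => decide (a ∉ cov (y z))) * toK K (fun z => decide (X ⊆ cov (y z))) := by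
      funext z
      by_cases hX : X ⊆ cov (y z) <;> by_cases haz : a ∈ cov (y z)
      · simp [toK, insert_subset_iff, hX, haz]
      · simp [toK, insert_subset_iff, hX, haz]
      · simp [toK, insert_subset_iff, hX, haz]
      · simp [toK, insert_subset_iff, hX, haz]
    rw [h1, card_insert_of_notMem ha]
    refine Submodule.add_mem _ (NF_mono hd tl ψ (by omega) ih) ?_
    exact NF_mono hd tl ψ (by omega) (NF_mul hd tl ψ (hG.null a)
      (J_le_DC ψ hψ hqK _ (hG.cov_deg X)))

lemma Good.tree_fail (hψ : ψ.IsPrimitive) (hqK : (q : K) ≠ 0) (hG : Good hd tl ψ b N ρ y)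
    {β : Type} (T : DT N β) :
    ∀ k : ℕ, T.HtLe k →
    toK K (fun z => (T.eval (y z)).isNone) ∈ NF hd tl ψ b (4 * k + 8) := by
  classical
  induction T with
  | leaf x =>
    intro k _
    have h1 : toK K (fun z => ((DT.leaf x).eval (y z)).isNone) = 0 := by
      funext z
      simp [toK, DT.eval]
    rw [h1]
    exact Submodule.zero_mem _
  | node X ch ih =>
    rintro k ⟨k', h1, h2⟩
    have h3 : toK K (fun z => ((DT.node X ch).eval (y z)).isNone) =
        toK K (fun z => decide (¬ X ⊆ cov (y z))) +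
        ∑ π : PS N, toK K (fun z => ((ch π).eval (y z)).isNone) *
          toK K (fun z => decide (X ⊆ cov (y z) ∧ mt X (y z) = π)) := by
      funext z
      rw [Pi.add_apply, Finset.sum_apply]
      by_cases hX : X ⊆ cov (y z)
      · rw [Finset.sum_eq_single (mt X (y z))]
        · simp only [Pi.mul_apply, toK, DT.eval, if_pos hX]
          simp [hX]
        · intro π _ hπ
          have : ¬ (mt X (y z) = π) := fun h => hπ h.symm
          simp [toK, this]
        · intro h; exact absurd (mem_univ _) h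
      · rw [Finset.sum_eq_zero]
        · simp [toK, DT.eval, hX]
        · intro π _
          simp [toK, hX]
    rw [h3]
    refine Submodule.add_mem _ (NF_mono hd tl ψ (by omega) (hG.notcov_null hψ hqK X)) ?_
    refine Submodule.sum_mem _ (fun π _ => ?_)
    exact NF_mono hd tl ψ (by omega) (NF_mul hd tl ψ (ih π k' (h2 π))
      (J_le_DC ψ hψ hqK _ (hG.branch_deg X π)))

end

end Pool.Agent.Helper600R2.Cnt
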