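import Pool.Agent.Helper600R2.Cnt.Eval
import Pool.Agent.Helper600R2.Cnt.TreeDeg

/-!
Degrees of the truth values of formulas.
-/

set_option linter.unusedSectionVars false

namespace Pool.Agent.Helper600R2.Cnt

open Finset Pool.Agent.Helper600R2

section mix

variable {Vt E : Type} [Fintype Vt] [Fintype E] [DecidableEq Vt] [DecidableEq E]
  {hd tl : E → Vt} {q : ℕ} [NeZero q] {K : Type*} [Field K] {ψ : AddChar (ZMod q) K}
  {b : Vt → ZMod q}

lemma mix_eq {ι : Type*} [DecidableEq ι] (S : Finset ι) (v : ι → (E → ZMod q) → Bool)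
    (F : Finset ι → (E → ZMod q) → K) :
    (fun z => F (S.filter (fun χ => v χ z = true)) z) =
      ∑ A ∈ S.powerset, F A *
        ∏ χ ∈ S, (if χ ∈ A then toK K (v χ) else 1 - toK K (v χ)) := by
  funext z
  rw [Finset.sum_apply, Finset.sum_eq_single (S.filter (fun χ => v χ z = true))]
  · rw [Pi.mul_apply, Finset.prod_apply, Finset.prod_eq_one, mul_one]
    intro χ hχ
    by_cases h : v χ z = true
    · simp [hχ, h, toK]
    · simp [h, toK]
  · intro A hA hne
    rw [mem_powerset] at hA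
    have : ∃ χ ∈ S, ¬ (χ ∈ A ↔ v χ z = true) := by
      by_contra hcon
      push Not at hcon
      apply hne
      ext χ
      rw [mem_filter]
      constructor
      · intro h; exact ⟨hA h, (hcon χ (hA h)).mp h⟩
      · rintro ⟨h1, h2⟩; exact (hcon χ h1).mpr h2
    obtain ⟨χ, hχ, hne'⟩ := this
    rw [Pi.mul_apply, Finset.prod_apply, Finset.prod_eq_zero hχ, mul_zero]
    by_cases hA' : χ ∈ A <;> by_cases h : v χ z = true
    · exact absurd (iff_of_true hA' h) hne'
    · simp [hA', h, toK]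
    · simp [hA', h, toK]
    · exact absurd (iff_of_false hA' h) hne'
  · intro h
    exact absurd (mem_powerset.mpr (filter_subset _ _)) h

lemma factor_J {ι : Type*} [DecidableEq ι] (S A : Finset ι) (v : ι → (E → ZMod q) → Bool)
    (a : ℕ) (hv : ∀ χ ∈ S, toK K (v χ) ∈ J (ι := E) (α := ZMod q) K a) :
    (∏ χ ∈ S, (if χ ∈ A then toK K (v χ) else 1 - toK K (v χ))) ∈
      J (ι := E) (α := ZMod q) K (S.card * a) := by
  have h := J_prod (K := K) S (fun χ => if χ ∈ A then toK K (v χ) else 1 - toK K (v χ))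
    (fun _ => a) (by
      intro χ hχ
      by_cases hA : χ ∈ A
      · simp only [hA, if_true]
        exact hv χ hχ
      · simp only [hA, if_false]
        exact Submodule.sub_mem _ (J_one _) (hv χ hχ))
  simpa using h

lemma mix_J {ι : Type*} [DecidableEq ι] (S : Finset ι) (v : ι → (E → ZMod q) → Bool)
    (F : Finset ι → (E → ZMod q) → K) (a w : ℕ)
    (hv : ∀ χ ∈ S, toK K (v χ) ∈ J (ι := E) (α := ZMod q) K a)
    (hF : ∀ A, F A ∈ J (ι := E) (α := ZMod q) K w) :
    (fun z => F (S.filter (fun χ => v χ z = true)) z) ∈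
      J (ι := E) (α := ZMod q) K (w + S.card * a) := by
  rw [mix_eq]
  exact Submodule.sum_mem _ (fun A _ => J_mul (hF A) (factor_J S A v a hv))

lemma mix_NF (hψ : ψ.IsPrimitive) (hqK : (q : K) ≠ 0) {ι : Type*} [DecidableEq ι]
    (S : Finset ι) (v : ι → (E → ZMod q) → Bool)
    (F : Finset ι → (E → ZMod q) → K) (a w : ℕ)
    (hv : ∀ χ ∈ S, toK K (v χ) ∈ J (ι := E) (α := ZMod q) K a)
    (hF : ∀ A, F A ∈ NF hd tl ψ b w) :
    (fun z => F (S.filter (fun χ => v χ z = true)) z) ∈ NF hd tl ψ b (w + S.card * a) := by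
  rw [mix_eq]
  exact Submodule.sum_mem _ (fun A _ => NF_mul hd tl ψ (hF A)
    (J_le_DC ψ hψ hqK _ (factor_J S A v a hv)))

end mix

section tops

variable {p : ℕ} {α : Type}

lemma tops_spec (φ : Fm p α) : ∀ χ ∈ φ.tops,
    (∃ i t, ∃ φs : Fin t → Fm p α, χ = .md i t φs) ∧ χ.depth ≤ φ.depth := by
  classical
  induction φ with
  | var a => intro χ hχ; simp [Fm.tops] at hχ
  | neg φ ih =>
    intro χ hχ
    obtain ⟨h1, h2⟩ := ih χ hχ
    refine ⟨h1, ?_⟩
    simp only [Fm.depth]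
    omega
  | or t φs ih =>
    intro χ hχ
    simp only [Fm.tops, mem_biUnion, mem_univ, true_and] at hχ
    obtain ⟨j, hj⟩ := hχ
    obtain ⟨h1, h2⟩ := ih j χ hj
    refine ⟨h1, ?_⟩
    simp only [Fm.depth]
    have := Finset.le_sup (f := fun j => (φs j).depth) (mem_univ j)
    omega
  | md i t φs _ =>
    intro χ hχ
    simp only [Fm.tops, mem_singleton] at hχ
    subst hχ
    exact ⟨⟨i, t, φs, rfl⟩, le_rfl⟩

lemma tops_mem {𝒰 : Finset (Fm p α)} (h𝒰 : ClosedFm 𝒰) (φ : Fm p α) :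
    φ ∈ 𝒰 → ∀ χ ∈ φ.tops, χ ∈ 𝒰 := by
  classical
  induction φ with
  | var a => intro _ χ hχ; simp [Fm.tops] at hχ
  | neg φ ih => intro hφ χ hχ; exact ih (h𝒰.neg φ hφ) χ hχ
  | or t φs ih =>
    intro hφ χ hχ
    simp only [Fm.tops, mem_biUnion, mem_univ, true_and] at hχ
    obtain ⟨j, hj⟩ := hχ
    exact ih j (h𝒰.or t φs hφ j) χ hj
  | md i t φs _ =>
    intro hφ χ hχ
    simp only [Fm.tops, mem_singleton] at hχ
    subst hχ
    exact hφ

end tops

section degree

variable {Vt E : Type} [Fintype Vt] [Fintype E] [DecidableEq Vt] [DecidableEq E]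
  {hd tl : E → Vt} {q : ℕ} [NeZero q] {K : Type*} [Field K] {ψ : AddChar (ZMod q) K}
  {b : Vt → ZMod q} {N : ℕ} {ρ : PS N} {y : (E → ZMod q) → PS N}
  {p : ℕ} [Fact p.Prime] [CharP K p] {α : Type} {blk : α → Finset (Fin N)} {k : ℕ}

/-- the valuation at `z` -/
noncomputable def Vz (q k : ℕ) (ρ : PS N) {p : ℕ} {α : Type} (blk : α → Finset (Fin N))
    (y : (E → ZMod q) → PS N) (z : E → ZMod q) (φ : Fm p α) : Bool :=
  VV blk (tv q k ρ (y z)) φ

lemma Vz_respMod (z : E → ZMod q) : RespMod (Vz (p := p) q k ρ blk y z) :=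
  VV_respMod (fun b => tv_cst (y z) b)

lemma rd_filter (φ : Fm p α) (z : E → ZMod q) [DecidableEq (Fm p α)] :
    rd blk (tv q k ρ (y z)) φ =
      subst blk (fun χ => decide (χ ∈ φ.tops.filter
        (fun χ => Vz (p := p) q k ρ blk y z χ = true))) φ := by
  rw [rd_eq_subst (fun b => tv_cst (y z) b)]
  apply subst_congr
  intro χ hχ
  have h1 : VV blk (tv q k ρ (y z)) χ = Vz (p := p) q k ρ blk y z χ := rfl
  rw [h1]
  cases h : Vz (p := p) q k ρ blk y z χ <;> simp [hχ, h]

lemma tv_deg (hG : Good hd tl ψ b N ρ y) (χ : MF N) :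
    toK K (fun z => tv q k ρ (y z) χ) ∈ J (ι := E) (α := ZMod q) K (4 * k) :=
  hG.tree_deg (fun σ => W q k χ true σ) (tr q k ρ χ) k (tr_ht χ)

lemma md_deg {t : ℕ} (v : Fin t → (E → ZMod q) → Bool) (i : ZMod p) (a : ℕ)
    (hv : ∀ j, toK K (v j) ∈ J (ι := E) (α := ZMod q) K a) :
    toK K (fun z => decide ((∑ j, if v j z = true then (1 : ZMod p) else 0) = i)) ∈
      J (ι := E) (α := ZMod q) K ((p - 1) * a) := by
  have hp : p.Prime := Fact.out
  let F : (E → ZMod q) → K := ∑ j, toK K (v j)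
  have hF : F ∈ J (ι := E) (α := ZMod q) K a := Submodule.sum_mem _ (fun j _ => hv j)
  have hFe : ∀ z, F z = ZMod.castHom (dvd_refl p) K
      (∑ j, if v j z = true then (1 : ZMod p) else 0) := by
    intro z
    simp only [F]
    rw [Finset.sum_apply, map_sum]
    refine Finset.sum_congr rfl (fun j _ => ?_)
    simp only [toK]
    split_ifs <;> simp
  have h1 : toK K (fun z => decide ((∑ j, if v j z = true then (1 : ZMod p) else 0) = i)) =
      1 - (F - fun _ => ZMod.castHom (dvd_refl p) K i) ^ (p - 1) := by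
    funext z
    have h2 : (1 - (F - fun _ : E → ZMod q => ZMod.castHom (dvd_refl p) K i) ^ (p - 1)) z =
        ZMod.castHom (dvd_refl p) K
          (1 - ((∑ j, if v j z = true then (1 : ZMod p) else 0) - i) ^ (p - 1)) := by
      simp only [Pi.sub_apply, Pi.one_apply, Pi.pow_apply, hFe, map_sub, map_one, map_pow]
    rw [h2]
    by_cases h : (∑ j, if v j z = true then (1 : ZMod p) else 0) = i
    · rw [h, sub_self, zero_pow (by have := hp.two_le; omega), sub_zero, map_one]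
      exact toK_true (decide_eq_true h)
    · rw [ZMod.pow_card_sub_one_eq_one (sub_ne_zero.mpr h), sub_self, map_zero]
      exact toK_false (decide_eq_false h)
  rw [h1]
  exact Submodule.sub_mem _ (J_one _) (J_pow (Submodule.sub_mem _ hF (J_const _ _)) _)

/-- degree bound in terms of the depth -/
def AA (k p G h : ℕ) : ℕ := 4 * k * (2 * p * (G + 1)) ^ h

lemma AA_succ (k p G h : ℕ) (hp : 1 ≤ p) :
    4 * k + G * ((p - 1) * AA k p G h) ≤ AA k p G (h + 1) ∧
      (p - 1) * AA k p G h ≤ AA k p G (h + 1) ∧ AA k p G h ≤ AA k p G (h + 1) := by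
  have hX : 1 ≤ 2 * p * (G + 1) := Nat.mul_pos (Nat.mul_pos (by norm_num) hp) (Nat.succ_pos G)
  have h1 : 4 * k ≤ AA k p G h := Nat.le_mul_of_pos_right _ (Nat.pow_pos hX)
  have h2 : AA k p G (h + 1) = 2 * (p * ((G + 1) * AA k p G h)) := by
    unfold AA; rw [pow_succ]; ring
  have h3 : (p - 1) * AA k p G h ≤ p * AA k p G h := Nat.mul_le_mul_right _ (Nat.sub_le _ _)
  have h4 : G * ((p - 1) * AA k p G h) ≤ p * (G * AA k p G h) := by
    calc G * ((p - 1) * AA k p G h) ≤ G * (p * AA k p G h) := Nat.mul_le_mul_left _ h3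
      _ = _ := by ring
  have h5 : p * ((G + 1) * AA k p G h) = p * (G * AA k p G h) + p * AA k p G h := by ring
  have h6 : AA k p G h ≤ p * AA k p G h := Nat.le_mul_of_pos_left _ hp
  refine ⟨?_, ?_, ?_⟩ <;> omega

theorem Vz_deg (hG : Good hd tl ψ b N ρ y) {𝒰 : Finset (Fm p α)} (h𝒰 : ClosedFm 𝒰) (G : ℕ)
    (hw : ∀ φ ∈ 𝒰, φ.tops.card ≤ G) : ∀ h : ℕ,
    (∀ φ ∈ 𝒰, φ.depth ≤ h →
      toK K (fun z => Vz q k ρ blk y z φ) ∈ J (ι := E) (α := ZMod q) K (AA k p G h)) ∧
    (∀ φ ∈ 𝒰, φ.depth ≤ h + 1 → ∀ χ ∈ φ.tops,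
      toK K (fun z => Vz q k ρ blk y z χ) ∈
        J (ι := E) (α := ZMod q) K ((p - 1) * AA k p G h)) := by
  classical
  have hp1 : 1 ≤ p := (Fact.out : p.Prime).one_le
  have key : ∀ h : ℕ, (∀ φ ∈ 𝒰, φ.depth ≤ h →
      toK K (fun z => Vz q k ρ blk y z φ) ∈ J (ι := E) (α := ZMod q) K (AA k p G h)) →
      (∀ φ ∈ 𝒰, φ.depth ≤ h + 1 → ∀ χ ∈ φ.tops,
      toK K (fun z => Vz q k ρ blk y z χ) ∈
        J (ι := E) (α := ZMod q) K ((p - 1) * AA k p G h)) := by
    intro h ih φ hφ hd χ hχ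
    obtain ⟨⟨i, t, φs, rfl⟩, h2⟩ := tops_spec φ χ hχ
    have hmem := tops_mem h𝒰 φ hφ _ hχ
    have h3 : (fun z => Vz (p := p) q k ρ blk y z (.md i t φs)) =
        fun z => decide ((∑ j, if (fun z => Vz (p := p) q k ρ blk y z (φs j)) z = true then
          (1 : ZMod p) else 0) = i) := by
      funext z
      exact Vz_respMod z i t φs
    rw [h3]
    apply md_deg (fun j z => Vz (p := p) q k ρ blk y z (φs j)) i
    intro j
    apply ih _ (h𝒰.md i t φs hmem j)
    simp only [Fm.depth] at h2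
    have := Finset.le_sup (f := fun j => (φs j).depth) (mem_univ j)
    omega
  have main : ∀ (φ : Fm p α) (a : ℕ), φ ∈ 𝒰 → (∀ χ ∈ φ.tops,
      toK K (fun z => Vz q k ρ blk y z χ) ∈ J (ι := E) (α := ZMod q) K a) →
      toK K (fun z => Vz q k ρ blk y z φ) ∈
        J (ι := E) (α := ZMod q) K (4 * k + φ.tops.card * a) := by
    intro φ a _ hχ
    have h1 := mix_J (K := K) φ.tops (fun χ z => Vz (p := p) q k ρ blk y z χ)
      (fun A => toK K (fun z => tv q k ρ (y z) (subst blk (fun χ => decide (χ ∈ A)) φ)))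
      a (4 * k) hχ (fun A => tv_deg hG _)
    have h2 : toK K (fun z => Vz q k ρ blk y z φ) =
        fun z => (fun A : Finset (Fm p α) => toK K (fun z => tv q k ρ (y z)
          (subst blk (fun χ => decide (χ ∈ A)) φ)))
          (φ.tops.filter (fun χ => (fun χ z => Vz (p := p) q k ρ blk y z χ) χ z = true)) z := by
      funext z
      exact congrArg (fun ψ => if tv q k ρ (y z) ψ = true then (1 : K) else 0)
        (rd_filter (p := p) (blk := blk) (k := k) (ρ := ρ) (y := y) φ z)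
    rw [h2]
    exact h1
  intro h
  induction h with
  | zero =>
    refine ⟨?_, ?_⟩
    · intro φ hφ hd
      have h1 : φ.tops = ∅ := by
        rw [Finset.eq_empty_iff_forall_notMem]
        intro χ hχ
        obtain ⟨⟨i, t, φs, rfl⟩, h2⟩ := tops_spec φ χ hχ
        simp only [Fm.depth] at h2
        omega
      have h2 := main φ 0 hφ (by rw [h1]; simp)
      rw [h1] at h2
      simpa [AA] using h2
    · apply key 0
      intro φ hφ hd
      have h1 : φ.tops = ∅ := by
        rw [Finset.eq_empty_iff_forall_notMem]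
        intro χ hχ
        obtain ⟨⟨i, t, φs, rfl⟩, h2⟩ := tops_spec φ χ hχ
        simp only [Fm.depth] at h2
        omega
      have h2 := main φ 0 hφ (by rw [h1]; simp)
      rw [h1] at h2
      simpa [AA] using h2
  | succ h ih =>
    have h1 : ∀ φ ∈ 𝒰, φ.depth ≤ h + 1 →
        toK K (fun z => Vz q k ρ blk y z φ) ∈
          J (ι := E) (α := ZMod q) K (AA k p G (h + 1)) := by
      intro φ hφ hd
      refine J_mono ?_ (main φ _ hφ (ih.2 φ hφ hd))
      refine le_trans ?_ (AA_succ k p G h hp1).1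
      exact Nat.add_le_add_left (Nat.mul_le_mul_right _ (hw φ hφ)) _
    exact ⟨h1, key (h + 1) h1⟩

/-- negligibility of the failure of a family of trees -/
lemma fail_null (hψ : ψ.IsPrimitive) (hqK : (q : K) ≠ 0) (hG : Good hd tl ψ b N ρ y)
    {𝒰 : Finset (Fm p α)} (h𝒰 : ClosedFm 𝒰) (G : ℕ)
    (hw : ∀ φ ∈ 𝒰, φ.tops.card ≤ G) (d : ℕ) (hd' : ∀ φ ∈ 𝒰, φ.depth ≤ d) (φ : Fm p α)
    (hφ : φ ∈ 𝒰) (l : ℕ) (C : MF N → DT N (PS N)) (hC : ∀ χ, (C χ).HtLe l) :
    toK K (fun z => ((C (rd blk (tv q k ρ (y z)) φ)).eval (y z)).isNone) ∈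
      NF hd tl ψ b (4 * l + 8 + G * (p * AA k p G d)) ∧
    toK K (fun z => ((C (rd blk (tv q k ρ (y z)) φ)).eval (y z)).isNone) ∈
      DC ψ (4 * l + 8 + G * (p * AA k p G d)) := by
  classical
  have hχ : ∀ χ ∈ φ.tops, toK K (fun z => Vz q k ρ blk y z χ) ∈
      J (ι := E) (α := ZMod q) K (p * AA k p G d) := by
    intro χ hχ
    refine J_mono (Nat.mul_le_mul_right _ (Nat.sub_le p 1))
      ((Vz_deg hG h𝒰 G hw d).2 φ hφ ?_ χ hχ)
    exact (hd' φ hφ).trans (Nat.le_succ d)
  have heq : toK K (fun z => ((C (rd blk (tv q k ρ (y z)) φ)).eval (y z)).isNone) =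
      fun z => (fun A : Finset (Fm p α) => toK K (fun z =>
        ((C (subst blk (fun χ => decide (χ ∈ A)) φ)).eval (y z)).isNone))
          (φ.tops.filter (fun χ => (fun χ z => Vz (p := p) q k ρ blk y z χ) χ z = true)) z := by
    funext z
    exact congrArg (fun ψ => if ((C ψ).eval (y z)).isNone = true then (1 : K) else 0)
      (rd_filter (p := p) (blk := blk) (k := k) (ρ := ρ) (y := y) φ z)
  have hcard : φ.tops.card * (p * AA k p G d) ≤ G * (p * AA k p G d) :=
    Nat.mul_le_mul_right _ (hw φ hφ)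
  constructor
  · rw [heq]
    refine NF_mono hd tl ψ (Nat.add_le_add_left hcard _) ?_
    exact mix_NF hψ hqK φ.tops (fun χ z => Vz (p := p) q k ρ blk y z χ)
      (fun A => toK K (fun z =>
        ((C (subst blk (fun χ => decide (χ ∈ A)) φ)).eval (y z)).isNone))
      (p * AA k p G d) (4 * l + 8) hχ (fun A => hG.tree_fail hψ hqK _ l (hC _))
  · rw [heq]
    apply J_le_DC ψ hψ hqK
    refine J_mono (Nat.add_le_add_left hcard _) ?_
    refine mix_J (K := K) φ.tops (fun χ z => Vz (p := p) q k ρ blk y z χ)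
      (fun A => toK K (fun z =>
        ((C (subst blk (fun χ => decide (χ ∈ A)) φ)).eval (y z)).isNone))
      (p * AA k p G d) (4 * l + 8) hχ (fun A => ?_)
    obtain ⟨F, hF, hFJ⟩ : ∃ F : (E → ZMod q) → K, (∀ z, F z =
        if ((C (subst blk (fun χ => decide (χ ∈ A)) φ)).eval (y z)).isNone = true then 0 else 1) ∧
        F ∈ J (ι := E) (α := ZMod q) K (4 * l) := by
      refine ⟨_, fun z => ?_, hG.tree_deg (fun _ => True)
        (C (subst blk (fun χ => decide (χ ∈ A)) φ)) l (hC _)⟩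
      cases h : (C (subst blk (fun χ => decide (χ ∈ A)) φ)).eval (y z) <;> simp [toK, h]
    have h2 : toK K (fun z =>
        ((C (subst blk (fun χ => decide (χ ∈ A)) φ)).eval (y z)).isNone) = 1 - F := by
      funext z
      rw [Pi.sub_apply, hF]
      cases h : (C (subst blk (fun χ => decide (χ ∈ A)) φ)).eval (y z) <;> simp [toK, h]
    rw [h2]
    have h3 : 4 * l ≤ 4 * l + 8 := by omega
    exact Submodule.sub_mem _ (J_one _) (J_mono h3 hFJ)

end degree

end Pool.Agent.Helper600R2.Cnt
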