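import Pool.Agent.Helper600R2.Cnt.Gadget

/-!
The partial partitions of `Fin N` given by edge values.
-/

set_option linter.unusedSectionVars false

namespace Pool.Agent.Helper600R2.Cnt

open Finset Pool.Agent.Helper600R2

section

variable {Vt E : Type} [Fintype Vt] [Fintype E] [DecidableEq Vt] [DecidableEq E]
  (hd tl : E → Vt) {q : ℕ} [NeZero q] {K : Type*} [Field K] (ψ : AddChar (ZMod q) K)

lemma nsupp_dd_le (hinc : ∀ v, (inc hd tl v).card ≤ 4) (v : Vt) (c : ZMod q) :
    (nsupp (dd hd tl (Pi.single v c))).card ≤ 4 := by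
  refine (card_le_card ?_).trans (hinc v)
  intro e he
  simp only [nsupp, mem_filter, mem_univ, true_and, dd] at he
  simp only [inc, mem_filter, mem_univ, true_and]
  by_contra hcon
  push Not at hcon
  apply he
  rw [Pi.single_eq_of_ne hcon.1, Pi.single_eq_of_ne hcon.2, sub_zero]

/-- the properties of the assignment of partial partitions to edge values -/
structure Good (b : Vt → ZMod q) (N : ℕ) (ρ : PS N) (y : (E → ZMod q) → PS N) : Prop where
  pp : ∀ z, IsPP q (y z)
  ext : ∀ z, ρ ⊆ y z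
  loc : ∀ u : Fin N, ∃ I : Finset E, I.card ≤ 4 ∧ ∀ z z' : E → ZMod q, (∀ e ∈ I, z e = z' e) →
    ∀ B, (B ∈ y z ∧ u ∈ B) ↔ (B ∈ y z' ∧ u ∈ B)
  null : ∀ u : Fin N, toK K (fun z => decide (u ∉ cov (y z))) ∈ NF hd tl ψ b 8

theorem exists_good (hψ : ψ.IsPrimitive) (hqK : (q : K) ≠ 0) (hVt : 3 < Fintype.card Vt)
    (hinc : ∀ v : Vt, (inc hd tl v).card ≤ 4) (N : ℕ) (ρ : PS N) (hρ : IsPP q ρ)
    (hN : Fintype.card E * (2 * (q - 1)) + q * ρ.card ≤ N) :
    ∃ (b : Vt → ZMod q) (y : (E → ZMod q) → PS N), Good hd tl ψ b N ρ y := by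
  classical
  have hq : 1 ≤ q := NeZero.one_le
  obtain ⟨v0⟩ : Nonempty Vt := Fintype.card_pos_iff.mp (by omega)
  set m0 : ℕ := N - q * ρ.card - Fintype.card E * (2 * (q - 1)) with hm0
  have hcard : Fintype.card (Slot E q m0) = Fintype.card {x : Fin N // x ∉ cov ρ} := by
    have h1 : Fintype.card {x : Fin N // x ∉ cov ρ} = (univ \ cov ρ).card := by
      rw [Fintype.card_subtype]
      congr 1
      ext x; simp
    have h2 := card_free hρ
    rw [h1]
    simp only [Slot, Fintype.card_sum, Fintype.card_prod, Fintype.card_bool, Fintype.card_fin]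
    omega
  let eq := Fintype.equivOfCardEq hcard
  let em : Slot E q m0 → Fin N := fun s => (eq s).1
  have hem : Function.Injective em := by
    intro a b h
    exact eq.injective (Subtype.ext h)
  have hem1 : ∀ s, em s ∉ cov ρ := fun s => (eq s).2
  have hem2 : ∀ x, x ∉ cov ρ → ∃ s, em s = x := fun x hx =>
    ⟨eq.symm ⟨x, hx⟩, by simp [em]⟩
  let y : (E → ZMod q) → PS N := fun z =>
    ρ ∪ (xz hd tl q m0 v0 z).image (fun B => B.image em)
  -- membership
  have hy1 : ∀ z u B, u ∈ cov ρ → ((B ∈ y z ∧ u ∈ B) ↔ (B ∈ ρ ∧ u ∈ B)) := by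
    intro z u B hu
    constructor
    · rintro ⟨hB, huB⟩
      rcases mem_union.mp hB with hB | hB
      · exact ⟨hB, huB⟩
      · obtain ⟨B', _, rfl⟩ := mem_image.mp hB
        obtain ⟨s, _, rfl⟩ := mem_image.mp huB
        exact absurd hu (hem1 s)
    · rintro ⟨hB, huB⟩
      exact ⟨mem_union_left _ hB, huB⟩
  have hy2 : ∀ z s B, ((B ∈ y z ∧ em s ∈ B) ↔
      ∃ B', (B' ∈ xz hd tl q m0 v0 z ∧ s ∈ B') ∧ B = B'.image em) := by
    intro z s B
    constructor
    · rintro ⟨hB, huB⟩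
      rcases mem_union.mp hB with hB | hB
      · exact absurd (mem_cov.mpr ⟨B, hB, huB⟩) (hem1 s)
      · obtain ⟨B', hB', rfl⟩ := mem_image.mp hB
        obtain ⟨s', hs', h⟩ := mem_image.mp huB
        rw [← hem h]
        exact ⟨B', ⟨hB', hs'⟩, rfl⟩
    · rintro ⟨B', ⟨hB', hs'⟩, rfl⟩
      exact ⟨mem_union_right _ (mem_image_of_mem _ hB'), mem_image_of_mem _ hs'⟩
  have hloc : ∀ u : Fin N, ∃ I : Finset E, I.card ≤ 4 ∧ ∀ z z' : E → ZMod q,
      (∀ e ∈ I, z e = z' e) → ∀ B, (B ∈ y z ∧ u ∈ B) ↔ (B ∈ y z' ∧ u ∈ B) := by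
    intro u
    by_cases hu : u ∈ cov ρ
    · exact ⟨∅, by simp, fun z z' _ B => by rw [hy1 z u B hu, hy1 z' u B hu]⟩
    · obtain ⟨s, rfl⟩ := hem2 u hu
      refine ⟨inc hd tl (home hd tl q m0 v0 s), hinc _, fun z z' h B => ?_⟩
      rw [hy2 z s B, hy2 z' s B]
      constructor
      · rintro ⟨B', h1, h2⟩
        exact ⟨B', (xz_local hd tl v0 h B').mp h1, h2⟩
      · rintro ⟨B', h1, h2⟩
        exact ⟨B', (xz_local hd tl v0 h B').mpr h1, h2⟩
  refine ⟨chg hd tl v0 m0, y, ?_, fun z => subset_union_left, hloc, ?_⟩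
  · intro z
    refine ⟨?_, ?_⟩
    · intro B hB
      rcases mem_union.mp hB with hB | hB
      · exact hρ.1 B hB
      · obtain ⟨B', hB', rfl⟩ := mem_image.mp hB
        rw [card_image_of_injective _ hem]
        exact xz_card hd tl v0 hB'
    · intro B hB C hC hne
      refine Finset.disjoint_left.mpr (fun x hx hx' => ?_)
      by_cases hxρ : x ∈ cov ρ
      · have h1 := ((hy1 z x B hxρ).mp ⟨hB, hx⟩).1
        have h2 := ((hy1 z x C hxρ).mp ⟨hC, hx'⟩).1
        exact Finset.disjoint_left.mp (hρ.2 B h1 C h2 hne) hx hx'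
      · obtain ⟨s, rfl⟩ := hem2 x hxρ
        obtain ⟨B', ⟨h1, h2⟩, h3⟩ := (hy2 z s B).mp ⟨hB, hx⟩
        obtain ⟨C', ⟨g1, g2⟩, g3⟩ := (hy2 z s C).mp ⟨hC, hx'⟩
        have hne' : B' ≠ C' := by
          rintro rfl
          exact hne (h3.trans g3.symm)
        exact Finset.disjoint_left.mp (xz_disj hd tl v0 h1 g1 hne') h2 g2
  · intro u
    by_cases hu : u ∈ cov ρ
    · have h1 : toK K (fun z => decide (u ∉ cov (y z))) = 0 := by
        funext z
        have h2 : u ∈ cov (y z) := cov_mono subset_union_left hu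
        simp [toK, h2]
      rw [h1]
      exact Submodule.zero_mem _
    · obtain ⟨s, rfl⟩ := hem2 u hu
      let v := home hd tl q m0 v0 s
      let Cind : (E → ZMod q) → K := fun z => if flow hd tl v z = chg hd tl v0 m0 v then 1 else 0
      have h1 := NF_constraint hd tl ψ hψ hqK (chg hd tl v0 m0) hVt 4
        (nsupp_dd_le hd tl hinc) v Cind (fun z hz => by simp [Cind, hz])
        (fun z hz => by simp [Cind, hz])
      have h2 : toK K (fun z => decide (em s ∉ cov (y z))) ∈ DC ψ 4 := by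
        apply J_le_DC ψ hψ hqK 4
        obtain ⟨I, hI, hI2⟩ := hloc (em s)
        refine junta_mem I hI ?_
        intro z z' hzz
        have h3 : (em s ∉ cov (y z)) ↔ (em s ∉ cov (y z')) := by
          rw [mem_cov, mem_cov]
          have h4 := hI2 z z' hzz
          constructor
          · rintro h ⟨B, hB⟩; exact h ⟨B, (h4 B).mpr hB⟩
          · rintro h ⟨B, hB⟩; exact h ⟨B, (h4 B).mp hB⟩
        simp only [toK, decide_eq_true_eq, h3]
      have h3 := NF_mul hd tl ψ h1 h2
      have h4 : (1 - Cind) * toK K (fun z => decide (em s ∉ cov (y z))) =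
          toK K (fun z => decide (em s ∉ cov (y z))) := by
        funext z
        by_cases hz : em s ∈ cov (y z)
        · simp [toK, hz]
        · have h5 : flow hd tl v z ≠ chg hd tl v0 m0 v := by
            apply uncovered_slot hd tl v0 hq
            intro B hB hsB
            exact hz (mem_cov.mpr ⟨_, ((hy2 z s _).mpr ⟨B, ⟨hB, hsB⟩, rfl⟩).1,
              mem_image_of_mem _ hsB⟩)
          simp [Cind, h5]
      rw [h4] at h3
      exact h3

end

end Pool.Agent.Helper600R2.Cnt
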