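import Pool.Agent.Helper600R2.Cnt.Main

/-!
Choice of parameters.
-/

set_option linter.unusedSectionVars false

namespace Pool.Agent.Helper600R2.Cnt

open Finset Pool.Agent.Helper600R2

lemma inc_card {n : ℕ} (π : Equiv.Perm (Fin n)) (v : Fin n) :
    (inc (ghd π) (gtl (n := n)) v).card ≤ 4 := by
  classical
  have h : inc (ghd π) (gtl (n := n)) v ⊆
      {(v, false), (v, true), ((finRotate n).symm v, false), (π.symm v, true)} := by
    rintro ⟨i, s⟩ hi
    simp only [inc, mem_filter, mem_univ, true_and] at hi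
    simp only [mem_insert, mem_singleton, Prod.mk.injEq]
    rcases hi with hi | hi
    · cases s
      · right; right; left
        refine ⟨?_, rfl⟩
        change finRotate n i = v at hi
        rw [← hi, Equiv.symm_apply_apply]
      · right; right; right
        refine ⟨?_, rfl⟩
        change π i = v at hi
        rw [← hi, Equiv.symm_apply_apply]
    · change i = v at hi
      subst hi
      cases s
      · left; exact ⟨rfl, rfl⟩
      · right; left; exact ⟨rfl, rfl⟩
  exact (card_le_card h).trans card_le_four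

/-- the numerical condition of one switching step -/
lemma num_step {N q k a A : ℕ} (hq : 1 ≤ q) (ha32 : 32 ≤ a) (haq : q ≤ a) (hak : k ≤ a)
    (hA : a ^ (2 * (q * q + q) + 4) ≤ A) (hAN : A ≤ N) :
    q * ((N - a) / q) < N ∧ (N - A) / q ≤ (N - a) / q ∧
      16 * (2 * k * ((N - q * ((N - a) / q)) ^ q) ^ q * (N - q * ((N - a) / q)) ^ q) ≤
        (N - a) / q - (N - A) / q := by
  set s : ℕ := q * q + q with hs
  have ha1 : 1 ≤ a := by omega
  have haA : a ≤ A := by
    refine le_trans ?_ hA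
    calc a = a ^ 1 := (pow_one a).symm
      _ ≤ _ := Nat.pow_le_pow_right ha1 (by omega)
  set n' : ℕ := N - q * ((N - a) / q) with hn'
  have hdiv := Nat.div_add_mod (N - a) q
  have hmod := Nat.mod_lt (N - a) (show 0 < q by omega)
  have hn'1 : n' ≤ 2 * a := by omega
  have h1 : q * ((N - a) / q) < N := by
    have : q * ((N - a) / q) ≤ N - a := Nat.mul_div_le _ _
    omega
  have h2 : (N - A) / q ≤ (N - a) / q := Nat.div_le_div_right (by omega)
  refine ⟨h1, h2, ?_⟩
  set x : ℕ := 16 * (2 * k * (n' ^ q) ^ q * n' ^ q) with hx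
  have hxle : x ≤ a ^ (2 * s + 2) := by
    have e1 : (n' ^ q) ^ q * n' ^ q = n' ^ s := by
      rw [← pow_mul, ← pow_add]
    have e2 : n' ^ s ≤ a ^ (2 * s) := by
      calc n' ^ s ≤ (2 * a) ^ s := Nat.pow_le_pow_left hn'1 s
        _ ≤ (a * a) ^ s := Nat.pow_le_pow_left (Nat.mul_le_mul_right a (by omega)) s
        _ = a ^ (2 * s) := by rw [← sq, ← pow_mul]
    calc x = 32 * k * n' ^ s := by rw [hx, ← e1]; ring
      _ ≤ a * a * a ^ (2 * s) := Nat.mul_le_mul (Nat.mul_le_mul ha32 hak) e2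
      _ = a ^ (2 * s + 2) := by rw [pow_add]; ring
  have hbig : q * x + a + q ≤ A := by
    have e3 : 1 ≤ a ^ (2 * s + 2) := Nat.one_le_pow _ _ ha1
    calc q * x + a + q ≤ a * a ^ (2 * s + 2) + a + a :=
          Nat.add_le_add (Nat.add_le_add_right (Nat.mul_le_mul haq hxle) _) haq
      _ ≤ a * a ^ (2 * s + 2) + a * a ^ (2 * s + 2) + a * a ^ (2 * s + 2) := by
          have : a ≤ a * a ^ (2 * s + 2) := Nat.le_mul_of_pos_right a e3
          omega
      _ = 3 * (a * a ^ (2 * s + 2)) := by ring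
      _ ≤ a * (a * a ^ (2 * s + 2)) := Nat.mul_le_mul_right _ (by omega)
      _ = a ^ (2 * s + 4) := by ring
      _ ≤ A := hA
  have h3 : q * ((N - A) / q) ≤ N - A := Nat.mul_div_le _ _
  have h4 : q * (x + (N - A) / q) ≤ q * ((N - a) / q) := by
    rw [Nat.mul_add]
    omega
  have h5 := Nat.le_of_mul_le_mul_left h4 (by omega : 0 < q)
  omega

lemma ww_le {k p G d X : ℕ} (hp : 1 ≤ p) (hX : 1 ≤ X) (hk : k ≤ X) (hG : G + 1 ≤ X) :
    ww k p G d ≤ (20 + 4 * p * (2 * p) ^ d + 4 * (2 * p) ^ d) * X ^ (d + 2) := by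
  have h1 : AA k p G d ≤ 4 * (2 * p) ^ d * X ^ (d + 1) := by
    unfold AA
    calc 4 * k * (2 * p * (G + 1)) ^ d ≤ 4 * X * (2 * p * X) ^ d :=
          Nat.mul_le_mul (Nat.mul_le_mul_left 4 hk)
            (Nat.pow_le_pow_left (Nat.mul_le_mul_left _ hG) d)
      _ = 4 * (2 * p) ^ d * X ^ (d + 1) := by rw [mul_pow, pow_succ]; ring
  have h2 : G * (p * AA k p G d) ≤ 4 * p * (2 * p) ^ d * X ^ (d + 2) := by
    calc G * (p * AA k p G d) ≤ X * (p * (4 * (2 * p) ^ d * X ^ (d + 1))) :=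
          Nat.mul_le_mul (by omega) (Nat.mul_le_mul_left _ h1)
      _ = 4 * p * (2 * p) ^ d * X ^ (d + 2) := by ring
  have h3 : X ≤ X ^ (d + 2) := Nat.le_self_pow (by omega) X
  have h4 : X ^ (d + 1) ≤ X ^ (d + 2) := Nat.pow_le_pow_right hX (by omega)
  have h5 : 4 * (2 * p) ^ d * X ^ (d + 1) ≤ 4 * (2 * p) ^ d * X ^ (d + 2) :=
    Nat.mul_le_mul_left _ h4
  unfold ww
  calc 8 * k + 12 + G * (p * AA k p G d) + AA k p G d
      ≤ 20 * X ^ (d + 2) + 4 * p * (2 * p) ^ d * X ^ (d + 2) +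
        4 * (2 * p) ^ d * X ^ (d + 2) := by omega
    _ = _ := by ring

/-- the combinatorial core with explicit parameters -/
theorem count_core (p q : ℕ) (hp : p.Prime) (hq : 2 ≤ q) (hpq : ¬ p ∣ q) (d c : ℕ) :
    ∃ C : ℕ, 0 < C ∧ ∀ N Y : ℕ, 1 ≤ Y →
      (C * (q * Y) ^ (d + 2)) ^ ((2 * (q * q + q) + 4) ^ d) ≤ N →
      ∀ (T : ℕ) (L : Fin T → Fm p (Var q N)), IsRefutation c L →
        (∀ φ ∈ allSub L, φ.depth ≤ d) → (∀ φ ∈ allSub L, φ.tops.card + 1 ≤ Y) →
        16 ^ Y < (allSub L).card * 2 ^ (Y - 1) := by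
  classical
  have : Fact p.Prime := ⟨hp⟩
  have : NeZero q := ⟨by omega⟩
  have hp1 : 1 ≤ p := hp.one_le
  set C1 : ℕ := 20 + 4 * p * (2 * p) ^ d + 4 * (2 * p) ^ d with hC1
  set C : ℕ := 240 * q * (2 * (2 * c + 1 + 1) * C1 + 1) + q * (d + 2) + 32 with hC
  refine ⟨C, by omega, ?_⟩
  intro N Y hY hN T L href hdepth htops
  by_contra hcon
  push Not at hcon
  set w : ℕ := 2 * (q * q + q) + 4 with hw
  set k : ℕ := q * Y with hk
  set m : ℕ := C * k ^ (d + 2) with hm
  have hk1 : 1 ≤ k := Nat.mul_pos (by omega) hY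
  have hkpow : k ≤ k ^ (d + 2) := Nat.le_self_pow (by omega) k
  have hmk : C * k ≤ m := Nat.mul_le_mul_left C hkpow
  have hmC : C ≤ m := Nat.le_mul_of_pos_right C (Nat.pow_pos hk1)
  have hm32 : 32 ≤ m := by omega
  have hmk' : k ≤ m := by
    refine le_trans ?_ hmk
    exact Nat.le_mul_of_pos_left k (by omega)
  have hqk : q ≤ k := Nat.le_mul_of_pos_right q hY
  have hmq : q ≤ m := hqk.trans hmk'
  have hm1 : 1 ≤ m := by omega
  -- the sizes
  let Asz : ℕ → ℕ := fun h => if h = 0 then N else m ^ (w ^ (d - h))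
  have hAm : ∀ h, 1 ≤ h → m ≤ Asz h := by
    intro h hh
    simp only [Asz, if_neg (show h ≠ 0 by omega)]
    exact Nat.le_self_pow (by positivity) m
  have hAstep : ∀ h < d, Asz (h + 1) ^ w ≤ Asz h := by
    intro h hh
    have e1 : Asz (h + 1) = m ^ (w ^ (d - (h + 1))) := by
      simp only [Asz, if_neg (show h + 1 ≠ 0 by omega)]
    have e2 : w ^ (d - (h + 1)) * w = w ^ (d - h) := by
      rw [← pow_succ]; congr 1; omega
    rw [e1, ← pow_mul, e2]
    by_cases h0 : h = 0
    · subst h0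
      simp only [Asz, if_true, Nat.sub_zero]
      exact hN
    · simp only [Asz, if_neg h0]
      exact le_rfl
  have hmN : m ≤ N := by
    refine le_trans ?_ hN
    exact Nat.le_self_pow (by positivity) m
  have hAN : ∀ h ≤ d, Asz h ≤ N := by
    intro h hh
    by_cases h0 : h = 0
    · simp only [Asz, h0, if_true]; exact le_rfl
    · simp only [Asz, if_neg h0]
      refine le_trans ?_ hN
      exact Nat.pow_le_pow_right hm1 (Nat.pow_le_pow_right (by omega) (by omega))
  let b : ℕ → ℕ := fun h => (N - Asz h) / q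
  have hb0 : b 0 = 0 := by simp [b, Asz]
  have hstep : ∀ h < d, q * b (h + 1) < N ∧ b h ≤ b (h + 1) ∧
      16 * (2 * k * ((N - q * b (h + 1)) ^ q) ^ q * (N - q * b (h + 1)) ^ q) ≤
        b (h + 1) - b h := by
    intro h hh
    have hm' := hAm (h + 1) (by omega)
    exact num_step (by omega) (hm32.trans hm') (hmq.trans hm') (hmk'.trans hm')
      (hAstep h hh) (hAN h (by omega))
  -- the family
  set 𝒰 := allSub L with h𝒰
  have hfamcard : (fam (N := N) (fun a : Var q N => a.1) 𝒰).card ≤ 16 ^ Y :=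
    (fam_card _ 𝒰 (Y - 1) (fun φ hφ => by have := htops φ hφ; omega)).trans hcon
  obtain ⟨ρ, hρ1, hρ2, hρ3⟩ := levels (q := q) (k := k) (D := Y) (by omega) hY rfl
    (fam (N := N) (fun a : Var q N => a.1) 𝒰) (fam_closed _ (allSub_closed L)) hfamcard b hb0 d
    hstep d le_rfl
  have hT : ∀ χ ∈ fam (N := N) (fun a : Var q N => a.1) 𝒰, HasT q k χ ρ k := by
    intro χ hχ
    apply hρ3 χ hχ
    obtain ⟨φ, hφ, μ, rfl⟩ := exists_of_mem_fam _ hχ
    exact (subst_dep _ μ φ).trans (hdepth φ hφ)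
  -- the free part
  have hfree : m ≤ N - q * ρ.card ∧ q * ρ.card ≤ N := by
    rw [hρ2]
    by_cases hd0 : d = 0
    · rw [hd0, hb0]
      simp only [mul_zero, Nat.sub_zero, Nat.zero_le, and_true]
      exact hmN
    · have h1 : Asz d = m := by
        simp only [Asz, if_neg hd0, Nat.sub_self, pow_zero, pow_one]
      have h2 : q * b d ≤ N - m := by
        simp only [b, h1]
        exact Nat.mul_div_le _ _
      omega
  -- the graph
  set n : ℕ := m / (4 * q) with hn
  have hww : ww k p (Y - 1) d ≤ C1 * k ^ (d + 2) :=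
    ww_le hp1 hk1 le_rfl (by
      have : Y ≤ k := Nat.le_mul_of_pos_left Y (by omega)
      omega)
  have hmbig : 240 * q * (2 * (2 * c + 1 + 1) * ww k p (Y - 1) d + 1) ≤ m := by
    calc 240 * q * (2 * (2 * c + 1 + 1) * ww k p (Y - 1) d + 1)
        ≤ 240 * q * (2 * (2 * c + 1 + 1) * (C1 * k ^ (d + 2)) + 1 * k ^ (d + 2)) := by
          apply Nat.mul_le_mul_left
          apply Nat.add_le_add
          · exact Nat.mul_le_mul_left _ hww
          · rw [one_mul]; exact Nat.one_le_pow _ _ hk1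
      _ = (240 * q * (2 * (2 * c + 1 + 1) * C1 + 1)) * k ^ (d + 2) := by ring
      _ ≤ C * k ^ (d + 2) := Nat.mul_le_mul_right _ (by omega)
  have hn1 : 60 * (2 * (2 * c + 1 + 1) * ww k p (Y - 1) d + 1) ≤ n := by
    rw [hn, Nat.le_div_iff_mul_le (by omega)]
    refine le_trans (le_of_eq ?_) hmbig
    ring
  have hn25 : 25 ≤ n := by omega
  obtain ⟨π, hπ⟩ := exists_expander hn25
  have h4q : 4 * q * n ≤ m := Nat.mul_div_le m (4 * q)
  -- the field
  have hqK : (q : AlgebraicClosure (ZMod p)) ≠ 0 := by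
    intro h
    rw [CharP.cast_eq_zero_iff (AlgebraicClosure (ZMod p)) p q] at h
    exact hpq h
  have : NeZero (q : ZMod p) := ⟨by
    intro h
    rw [CharP.cast_eq_zero_iff (ZMod p) p q] at h
    exact hpq h⟩
  obtain ⟨ζ, hζ⟩ := HasEnoughRootsOfUnity.exists_primitiveRoot (AlgebraicClosure (ZMod p)) q
  have hprim := AddChar.zmodChar_primitive_of_primitive_root q hζ
  refine no_refutation (Vt := Fin n) (E := Fin n × Bool) (ghd π) gtl _ hprim hqK
    (by rw [Fintype.card_fin]; omega) (inc_card π) c d k (Y - 1) hk1 (graph_conn π)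
    (graph_exp π hπ ?_) ρ hρ1 ?_ L href hdepth ?_ ?_ hT
  · have h1 : 60 * (2 * ((2 * c + 1 + 1) * ww k p (Y - 1) d)) ≤ n := by
      refine le_trans ?_ hn1
      apply Nat.mul_le_mul_left
      rw [← mul_assoc]
      exact Nat.le_succ _
    rw [Nat.le_div_iff_mul_le (by norm_num)]
    omega
  · have h1 : Fintype.card (Fin n × Bool) * (2 * (q - 1)) ≤ 4 * q * n := by
      rw [Fintype.card_prod, Fintype.card_fin, Fintype.card_bool]
      calc n * 2 * (2 * (q - 1)) = (q - 1) * (4 * n) := by ring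
        _ ≤ q * (4 * n) := Nat.mul_le_mul_right _ (Nat.sub_le q 1)
        _ = 4 * q * n := by ring
    omega
  · intro φ hφ
    have := htops φ hφ
    omega
  · have h1 : q * (2 * k + k * d) ≤ m := by
      calc q * (2 * k + k * d) = q * (d + 2) * k := by ring
        _ ≤ C * k := Nat.mul_le_mul_right k (by omega)
        _ ≤ m := hmk
    have h2 : q * (ρ.card + 2 * k + k * d) = q * ρ.card + q * (2 * k + k * d) := by ring
    rw [h2]
    omega

end Pool.Agent.Helper600R2.Cnt
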