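import Pool.Agent.Helper600R2.Cnt.PP

/-!
Forcing of formulas by partial partitions.
-/

set_option linter.unusedSectionVars false

namespace Pool.Agent.Helper600R2.Cnt

open Finset

/-- formulas with constants, variables indexed by sets of elements, negation and unbounded
disjunction -/
inductive MF (N : ℕ) : Type
  | cst (b : Bool) : MF N
  | var (e : Finset (Fin N)) : MF N
  | neg (φ : MF N) : MF N
  | or (t : ℕ) (φs : Fin t → MF N) : MF N

variable {N : ℕ}

/-- nesting depth of disjunctions -/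
def MF.dep : MF N → ℕ
  | .cst _ => 0
  | .var _ => 0
  | .neg φ => φ.dep
  | .or _ φs => 1 + univ.sup (fun j => (φs j).dep)

lemma MF.dep_lt {t : ℕ} (φs : Fin t → MF N) (j : Fin t) : (φs j).dep < (MF.or t φs).dep := by
  have h : (φs j).dep ≤ univ.sup (fun j => (φs j).dep) :=
    Finset.le_sup (f := fun j => (φs j).dep) (mem_univ j)
  simp only [MF.dep]
  omega

/-- `W q k φ b π`: the partial partition `π` forces the value `b` of `φ`. -/
def W (q k : ℕ) : MF N → Bool → PS N → Prop
  | .cst c, b, _ => c = b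
  | .var e, b, π => if b = true then e ∈ π else (e ∉ π ∧ (e.card ≠ q ∨ ¬ Disjoint e (cov π)))
  | .neg φ, b, π => W q k φ (!b) π
  | .or t φs, b, π => if b = true then ∃ j, W q k (φs j) true π else
      ∀ π', IsPP q π' → π ⊆ π' → q * (π'.card + k * (MF.or t φs).dep) ≤ N →
        ∀ j, ¬ W q k (φs j) true π'

variable {q k : ℕ}

lemma W_or_true {t : ℕ} {φs : Fin t → MF N} {π : PS N} :
    W q k (.or t φs) true π ↔ ∃ j, W q k (φs j) true π := by
  rw [W, if_pos rfl]

lemma W_or_false {t : ℕ} {φs : Fin t → MF N} {π : PS N} :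
    W q k (.or t φs) false π ↔ ∀ π', IsPP q π' → π ⊆ π' →
      q * (π'.card + k * (MF.or t φs).dep) ≤ N → ∀ j, ¬ W q k (φs j) true π' := by
  rw [W, if_neg (by simp)]

lemma W_mono (φ : MF N) : ∀ {b : Bool} {π π1 : PS N}, W q k φ b π → π ⊆ π1 → IsPP q π1 →
    W q k φ b π1 := by
  induction φ with
  | cst c => intro b π π1 h _ _; exact h
  | var e =>
    intro b π π1 h hs hPP
    cases b with
    | true =>
      simp only [W, if_true] at h ⊢
      exact hs h
    | false =>
      simp only [W, Bool.false_eq_true, if_false] at h ⊢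
      obtain ⟨h1, h2 | h2⟩ := h
      · exact ⟨fun he => h2 (hPP.1 e he), Or.inl h2⟩
      · rw [Finset.not_disjoint_iff] at h2
        obtain ⟨x, hx, hx'⟩ := h2
        obtain ⟨B, hB, hxB⟩ := mem_cov.mp hx'
        refine ⟨fun he => ?_, Or.inr ?_⟩
        · have := hPP.eq_of_mem he (hs hB) hx hxB
          subst this
          exact h1 hB
        · rw [Finset.not_disjoint_iff]
          exact ⟨x, hx, cov_mono hs hx'⟩
  | neg φ ih => intro b π π1 h hs hPP; exact ih h hs hPP
  | or t φs ih =>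
    intro b π π1 h hs hPP
    cases b with
    | true =>
      rw [W_or_true] at h ⊢
      obtain ⟨j, hj⟩ := h
      exact ⟨j, ih j hj hs hPP⟩
    | false =>
      rw [W_or_false] at h ⊢
      intro π' h1 h2 h3
      exact h π' h1 (hs.trans h2) h3

lemma W_cons (φ : MF N) : ∀ {π : PS N}, IsPP q π → q * (π.card + k * φ.dep) ≤ N →
    W q k φ true π → W q k φ false π → False := by
  induction φ with
  | cst c =>
    intro π _ _ h1 h2
    simp only [W] at h1 h2
    rw [h1] at h2
    exact Bool.noConfusion h2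
  | var e =>
    intro π _ _ h1 h2
    simp only [W, if_true, Bool.false_eq_true, if_false] at h1 h2
    exact h2.1 h1
  | neg φ ih =>
    intro π h h' h1 h2
    exact ih h h' h2 h1
  | or t φs ih =>
    intro π h h' h1 h2
    rw [W_or_true] at h1
    rw [W_or_false] at h2
    obtain ⟨j, hj⟩ := h1
    exact h2 π h subset_rfl h' j hj

/-- the tree `T` finds a forcing partial partition (of at most `w` blocks beyond `ρ`) -/
def Rep (q k : ℕ) (φ : MF N) (T : DT N (PS N)) (ρ : PS N) (w : ℕ) : Prop :=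
  ∀ y, IsPP q y → ρ ⊆ y → ∀ σ, T.eval y = some σ →
    ρ ⊆ σ ∧ σ ⊆ y ∧ σ.card ≤ ρ.card + w ∧ (W q k φ true σ ∨ W q k φ false σ)

/-- there is such a tree of height at most `w` -/
def HasT (q k : ℕ) (φ : MF N) (ρ : PS N) (w : ℕ) : Prop :=
  ∃ T : DT N (PS N), T.HtLe w ∧ Rep q k φ T ρ w

lemma HasT.mono {φ : MF N} {ρ : PS N} {w w' : ℕ} (h : HasT q k φ ρ w) (hw : w ≤ w') :
    HasT q k φ ρ w' := by
  obtain ⟨T, h1, h2⟩ := h
  refine ⟨T, h1.mono hw, fun y hy hρ σ hσ => ?_⟩
  obtain ⟨a, b, c, d⟩ := h2 y hy hρ σ hσ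
  exact ⟨a, b, by omega, d⟩

lemma HasT.persist {φ : MF N} {ρ ρ1 : PS N} {w : ℕ} (h : HasT q k φ ρ w) (hs : ρ ⊆ ρ1) :
    HasT q k φ ρ1 w := by
  classical
  obtain ⟨T, h1, h2⟩ := h
  refine ⟨T.bind (fun σ => .leaf (σ ∪ ρ1)), ?_, ?_⟩
  · have := DT.HtLe.bind (f := fun σ : PS N => DT.leaf (σ ∪ ρ1)) (l := 0)
      (fun _ => trivial) h1
    simpa using this
  · intro y hy hρ1 σ hσ
    rw [DT.eval_bind] at hσ
    cases hT : T.eval y with
    | none => rw [hT] at hσ; simp at hσ
    | some σ0 =>
      rw [hT] at hσ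
      simp only [Option.bind_some, DT.eval, Option.some.injEq] at hσ
      subst hσ
      obtain ⟨a, b, c, d⟩ := h2 y hy (hs.trans hρ1) σ0 hT
      have hsub : σ0 ∪ ρ1 ⊆ y := union_subset b hρ1
      refine ⟨subset_union_right, hsub, ?_, ?_⟩
      · have e1 : (σ0 ∪ ρ1).card ≤ (σ0 \ ρ).card + ρ1.card := by
          have : σ0 ∪ ρ1 ⊆ (σ0 \ ρ) ∪ ρ1 := by
            intro B hB
            simp only [mem_union, mem_sdiff] at hB ⊢
            rcases hB with hB | hB
            · by_cases hBρ : B ∈ ρ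
              · exact Or.inr (hs hBρ)
              · exact Or.inl ⟨hB, hBρ⟩
            · exact Or.inr hB
          exact (card_le_card this).trans (card_union_le _ _)
        have e2 : (σ0 \ ρ).card + ρ.card = σ0.card := card_sdiff_add_card_eq_card a
        omega
      · rcases d with d | d
        · exact Or.inl (W_mono φ d subset_union_left (hy.mono hsub))
        · exact Or.inr (W_mono φ d subset_union_left (hy.mono hsub))

lemma HasT.cst (c : Bool) (ρ : PS N) (w : ℕ) : HasT q k (.cst c) ρ w := by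
  refine ⟨.leaf ρ, trivial, fun y _ hρ σ hσ => ?_⟩
  simp only [DT.eval, Option.some.injEq] at hσ
  subst hσ
  refine ⟨subset_rfl, hρ, by omega, ?_⟩
  cases c
  · exact Or.inr rfl
  · exact Or.inl rfl

lemma HasT.var (hq : 1 ≤ q) (e : Finset (Fin N)) (ρ : PS N) (w : ℕ) (hw : q ≤ w) :
    HasT q k (.var e) ρ w := by
  classical
  by_cases he : e.card = q
  · refine ⟨.node e (fun π => .leaf (ρ ∪ π)), ⟨0, by omega, fun _ => trivial⟩, ?_⟩
    intro y hy hρ σ hσ
    rw [DT.eval] at hσ
    by_cases hc : e ⊆ cov y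
    · rw [if_pos hc] at hσ
      simp only [DT.eval, Option.some.injEq] at hσ
      subst hσ
      have hsub : ρ ∪ mt e y ⊆ y := union_subset hρ (mt_subset _ _)
      refine ⟨subset_union_left, hsub, ?_, ?_⟩
      · have h1 := card_mt_le hy e
        have h2 := card_union_le ρ (mt e y)
        omega
      · obtain ⟨x, hx⟩ : e.Nonempty := by
          rw [← card_pos]; omega
        by_cases hey : e ∈ y
        · left
          simp only [W, if_true]
          exact mem_union_right _ (mem_mt.mpr ⟨hey, x, hx, hx⟩)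
        · right
          simp only [W, Bool.false_eq_true, if_false]
          refine ⟨fun h => hey (hsub h), Or.inr ?_⟩
          rw [Finset.not_disjoint_iff]
          exact ⟨x, hx, cov_mono subset_union_right (cov_mt hc hx)⟩
    · rw [if_neg hc] at hσ
      exact absurd hσ (by simp)
  · refine ⟨.leaf ρ, trivial, fun y hy hρ σ hσ => ?_⟩
    simp only [DT.eval, Option.some.injEq] at hσ
    subst hσ
    refine ⟨subset_rfl, hρ, by omega, Or.inr ?_⟩
    simp only [W, Bool.false_eq_true, if_false]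
    exact ⟨fun h => he (hy.1 e (hρ h)), Or.inl he⟩

lemma HasT.neg {φ : MF N} {ρ : PS N} {w : ℕ} (h : HasT q k φ ρ w) :
    HasT q k (.neg φ) ρ w := by
  obtain ⟨T, h1, h2⟩ := h
  refine ⟨T, h1, fun y hy hρ σ hσ => ?_⟩
  obtain ⟨a, b, c, d⟩ := h2 y hy hρ σ hσ
  refine ⟨a, b, c, ?_⟩
  rcases d with d | d
  · exact Or.inr d
  · exact Or.inl d

end Pool.Agent.Helper600R2.Cnt
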