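import Pool.Agent.Helper600R2.Cnt.PP
import Pool.Agent.Helper600R2.Lift

/-!
From edge values of a mod `q` Tseitin system to partial partitions into `q`-sets.
-/

set_option linter.unusedSectionVars false

namespace Pool.Agent.Helper600R2.Cnt

open Finset Pool.Agent.Helper600R2

section part

variable {α : Type*} [DecidableEq α]

lemma exists_part {q : ℕ} (hq : 1 ≤ q) : ∀ (k : ℕ) (R : Finset α), R.card = q * k →
    ∃ P : Finset (Finset α), (∀ B ∈ P, B ⊆ R ∧ B.card = q) ∧
      (∀ B ∈ P, ∀ C ∈ P, B ≠ C → Disjoint B C) ∧ ∀ x ∈ R, ∃ B ∈ P, x ∈ B := by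
  intro k
  induction k with
  | zero =>
    intro R hR
    refine ⟨∅, by simp, by simp, ?_⟩
    intro x hx
    have : R = ∅ := by rw [← card_eq_zero]; simpa using hR
    rw [this] at hx
    simp at hx
  | succ k ih =>
    intro R hR
    obtain ⟨B, hB, hBq⟩ := Finset.exists_subset_card_eq (s := R) (n := q)
      (by rw [hR]; exact Nat.le_mul_of_pos_right q (Nat.succ_pos k))
    have hR' : (R \ B).card = q * k := by
      have := card_sdiff_add_card_eq_card hB
      have h2 : q * (k + 1) = q * k + q := by ring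
      omega
    obtain ⟨P, h1, h2, h3⟩ := ih (R \ B) hR'
    refine ⟨insert B P, ?_, ?_, ?_⟩
    · intro C hC
      rcases mem_insert.mp hC with rfl | hC
      · exact ⟨hB, hBq⟩
      · exact ⟨(h1 C hC).1.trans sdiff_subset, (h1 C hC).2⟩
    · have key : ∀ C ∈ P, Disjoint B C := by
        intro C hC
        refine Finset.disjoint_left.mpr (fun x hx hx' => ?_)
        exact (mem_sdiff.mp ((h1 C hC).1 hx')).2 hx
      intro C hC C' hC' hne
      rw [mem_insert] at hC hC'
      rcases hC with rfl | hC <;> rcases hC' with rfl | hC'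
      · exact absurd rfl hne
      · exact key C' hC'
      · exact (key C hC).symm
      · exact h2 C hC C' hC' hne
    · intro x hx
      by_cases hxB : x ∈ B
      · exact ⟨B, mem_insert_self _ _, hxB⟩
      · obtain ⟨C, hC, hxC⟩ := h3 x (mem_sdiff.mpr ⟨hx, hxB⟩)
        exact ⟨C, mem_insert_of_mem hC, hxC⟩

/-- the grouping of a set whose size is divisible by `q` -/
noncomputable def grp (q : ℕ) (R : Finset α) : Finset (Finset α) :=
  open Classical in
  if h : ∃ P : Finset (Finset α), (∀ B ∈ P, B ⊆ R ∧ B.card = q) ∧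
      (∀ B ∈ P, ∀ C ∈ P, B ≠ C → Disjoint B C) ∧ ∀ x ∈ R, ∃ B ∈ P, x ∈ B then h.choose else ∅

lemma grp_mem {q : ℕ} {R B : Finset α} (hB : B ∈ grp q R) : B ⊆ R ∧ B.card = q := by
  unfold grp at hB
  split_ifs at hB with h
  · exact h.choose_spec.1 B hB
  · simp at hB

lemma grp_disj {q : ℕ} {R B C : Finset α} (hB : B ∈ grp q R) (hC : C ∈ grp q R)
    (hne : B ≠ C) : Disjoint B C := by
  unfold grp at hB hC
  split_ifs at hB hC with h
  · exact h.choose_spec.2.1 B hB C hC hne
  · simp at hB

lemma grp_cover {q : ℕ} (hq : 1 ≤ q) {R : Finset α} (hR : q ∣ R.card) {x : α} (hx : x ∈ R) :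
    ∃ B ∈ grp q R, x ∈ B := by
  obtain ⟨k, hk⟩ := hR
  have h := exists_part hq k R hk
  unfold grp
  rw [dif_pos h]
  exact h.choose_spec.2.2 x hx

end part

section slots

variable {Vt E : Type} [Fintype Vt] [Fintype E] [DecidableEq Vt] [DecidableEq E]
  (hd tl : E → Vt) (q : ℕ) [NeZero q] (m0 : ℕ) (v0 : Vt)

/-- slots: `q - 1` at each end of each edge, and `m0` further ones -/
abbrev Slot (E : Type) (q m0 : ℕ) : Type := (E × Bool × Fin (q - 1)) ⊕ Fin m0

/-- the vertex of a slot -/
def home : Slot E q m0 → Vt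
  | .inl (e, true, _) => hd e
  | .inl (e, false, _) => tl e
  | .inr _ => v0

/-- the slots used by the edge blocks -/
def us (z : E → ZMod q) : Slot E q m0 → Prop
  | .inl (e, true, i) => i.val < (z e).val
  | .inl (e, false, i) => z e ≠ 0 ∧ i.val < q - (z e).val
  | .inr _ => False

noncomputable instance (z : E → ZMod q) (s : Slot E q m0) : Decidable (us q m0 z s) :=
  Classical.dec _

/-- the block of an edge -/
noncomputable def eb (z : E → ZMod q) (e : E) : Finset (Slot E q m0) :=
  open Classical in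
  univ.filter (fun s => us q m0 z s ∧ ∃ b i, s = .inl (e, b, i))

/-- the unused slots at a vertex -/
noncomputable def lft (z : E → ZMod q) (v : Vt) : Finset (Slot E q m0) :=
  univ.filter (fun s => ¬ us q m0 z s ∧ home hd tl q m0 v0 s = v)

/-- the partial partition of the slots -/
noncomputable def xz (z : E → ZMod q) : Finset (Finset (Slot E q m0)) :=
  (univ.filter (fun e => z e ≠ 0)).image (eb q m0 z) ∪
    univ.biUnion (fun v => grp q (lft hd tl q m0 v0 z v))

/-- edges at a vertex -/
def inc (v : Vt) : Finset E := univ.filter (fun e => hd e = v ∨ tl e = v)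

variable {q m0}

lemma us_edge {z : E → ZMod q} {s : Slot E q m0} (h : us q m0 z s) :
    ∃ e b i, s = .inl (e, b, i) ∧ z e ≠ 0 := by
  rcases s with ⟨e, b, i⟩ | j
  · refine ⟨e, b, i, rfl, ?_⟩
    cases b
    · exact h.1
    · intro h0
      simp only [us] at h
      rw [h0, ZMod.val_zero] at h
      omega
  · exact absurd h (by simp [us])

lemma us_congr {z z' : E → ZMod q} {e : E} {b : Bool} {i : Fin (q - 1)} (h : z e = z' e) :
    us q m0 z (.inl (e, b, i)) ↔ us q m0 z' (.inl (e, b, i)) := by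
  cases b <;> simp only [us, h]

lemma eb_congr {z z' : E → ZMod q} {e : E} (h : z e = z' e) :
    eb q m0 z e = eb q m0 z' e := by
  classical
  ext s
  simp only [eb, mem_filter, mem_univ, true_and]
  constructor
  · rintro ⟨h1, b, i, rfl⟩; exact ⟨(us_congr h).mp h1, b, i, rfl⟩
  · rintro ⟨h1, b, i, rfl⟩; exact ⟨(us_congr h).mpr h1, b, i, rfl⟩

lemma inc_home (e : E) (b : Bool) (i : Fin (q - 1)) :
    e ∈ inc hd tl (home hd tl q m0 v0 (.inl (e, b, i))) := by
  cases b <;> simp [inc, home]

lemma lft_congr {z z' : E → ZMod q} {v : Vt} (h : ∀ e ∈ inc hd tl v, z e = z' e) :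
    lft hd tl q m0 v0 z v = lft hd tl q m0 v0 z' v := by
  ext s
  simp only [lft, mem_filter, mem_univ, true_and]
  have key : home hd tl q m0 v0 s = v → (us q m0 z s ↔ us q m0 z' s) := by
    intro hs
    rcases s with ⟨e, b, i⟩ | j
    · apply us_congr
      apply h
      rw [← hs]
      exact inc_home hd tl v0 e b i
    · simp [us]
  constructor
  · rintro ⟨h1, h2⟩; exact ⟨fun h3 => h1 ((key h2).mpr h3), h2⟩
  · rintro ⟨h1, h2⟩; exact ⟨fun h3 => h1 ((key h2).mp h3), h2⟩

/-- the blocks containing a given slot -/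
lemma mem_xz_slot {z : E → ZMod q} {s : Slot E q m0} {B : Finset (Slot E q m0)} :
    (B ∈ xz hd tl q m0 v0 z ∧ s ∈ B) ↔
      (us q m0 z s ∧ ∃ e b i, s = .inl (e, b, i) ∧ B = eb q m0 z e) ∨
      (¬ us q m0 z s ∧ B ∈ grp q (lft hd tl q m0 v0 z (home hd tl q m0 v0 s)) ∧ s ∈ B) := by
  classical
  simp only [xz, mem_union, mem_image, mem_filter, mem_univ, true_and, mem_biUnion]
  constructor
  · rintro ⟨⟨e, he, rfl⟩ | ⟨v, hv⟩, hs⟩
    · left
      simp only [eb, mem_filter, mem_univ, true_and] at hs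
      obtain ⟨h1, b, i, rfl⟩ := hs
      exact ⟨h1, e, b, i, rfl, rfl⟩
    · right
      have h1 := (grp_mem hv).1 hs
      simp only [lft, mem_filter, mem_univ, true_and] at h1
      obtain ⟨h2, h3⟩ := h1
      subst h3
      exact ⟨h2, hv, hs⟩
  · rintro (⟨h1, e, b, i, rfl, rfl⟩ | ⟨h1, h2, h3⟩)
    · obtain ⟨e', b', i', h4, h5⟩ := us_edge h1
      simp only [Sum.inl.injEq, Prod.mk.injEq] at h4
      obtain ⟨h4, _⟩ := h4
      subst h4
      refine ⟨Or.inl ⟨e, h5, rfl⟩, ?_⟩
      simp only [eb, mem_filter, mem_univ, true_and]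
      exact ⟨h1, b, i, rfl⟩
    · exact ⟨Or.inr ⟨_, h2⟩, h3⟩

lemma xz_local {z z' : E → ZMod q} {s : Slot E q m0}
    (h : ∀ e ∈ inc hd tl (home hd tl q m0 v0 s), z e = z' e) (B : Finset (Slot E q m0)) :
    (B ∈ xz hd tl q m0 v0 z ∧ s ∈ B) ↔ (B ∈ xz hd tl q m0 v0 z' ∧ s ∈ B) := by
  rw [mem_xz_slot, mem_xz_slot, lft_congr hd tl v0 h]
  have key : us q m0 z s ↔ us q m0 z' s := by
    rcases s with ⟨e, b, i⟩ | j
    · exact us_congr (h e (inc_home hd tl v0 e b i))
    · simp [us]
  have key2 : (∃ e b i, s = .inl (e, b, i) ∧ B = eb q m0 z e) ↔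
      (∃ e b i, s = .inl (e, b, i) ∧ B = eb q m0 z' e) := by
    constructor
    · rintro ⟨e, b, i, rfl, rfl⟩
      exact ⟨e, b, i, rfl, eb_congr (h e (inc_home hd tl v0 e b i))⟩
    · rintro ⟨e, b, i, rfl, rfl⟩
      exact ⟨e, b, i, rfl, (eb_congr (h e (inc_home hd tl v0 e b i))).symm⟩
  rw [key, key2]

lemma card_fin_lt {r a : ℕ} (h : a ≤ r) :
    (univ.filter (fun i : Fin r => i.val < a)).card = a := by
  have h3 : (univ.filter (fun t : Fin r => t.val < a)).card =
      ((univ.filter (fun t : Fin r => t.val < a)).map Fin.valEmbedding).card := by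
    rw [card_map]
  rw [h3]
  have h4 : (univ.filter (fun t : Fin r => t.val < a)).map Fin.valEmbedding = range a := by
    ext k
    simp only [mem_map, mem_filter, mem_univ, true_and, mem_range, Fin.valEmbedding_apply]
    constructor
    · rintro ⟨a, ha, rfl⟩; exact ha
    · intro hk; exact ⟨⟨k, by omega⟩, hk, rfl⟩
  rw [h4, card_range]

lemma eb_card {z : E → ZMod q} {e : E} (he : z e ≠ 0) : (eb q m0 z e).card = q := by
  classical
  have hval : (z e).val < q := ZMod.val_lt _
  have hval0 : (z e).val ≠ 0 := by rwa [Ne, ZMod.val_eq_zero]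
  have h1 : eb q m0 z e =
      (univ.filter (fun i : Fin (q - 1) => i.val < (z e).val)).image
        (fun i => (Sum.inl (e, true, i) : Slot E q m0)) ∪
      (univ.filter (fun i : Fin (q - 1) => i.val < q - (z e).val)).image
        (fun i => (Sum.inl (e, false, i) : Slot E q m0)) := by
    ext s
    simp only [eb, mem_filter, mem_univ, true_and, mem_union, mem_image]
    constructor
    · rintro ⟨h1, b, i, rfl⟩
      cases b
      · exact Or.inr ⟨i, h1.2, rfl⟩
      · exact Or.inl ⟨i, h1, rfl⟩
    · rintro (⟨i, hi, rfl⟩ | ⟨i, hi, rfl⟩)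
      · exact ⟨hi, true, i, rfl⟩
      · exact ⟨⟨he, hi⟩, false, i, rfl⟩
  rw [h1, card_union_of_disjoint, card_image_of_injective, card_image_of_injective,
    card_fin_lt (by omega), card_fin_lt (by omega)]
  · omega
  · intro i j h
    simpa using h
  · intro i j h
    simpa using h
  · rw [Finset.disjoint_left]
    intro s hs hs'
    simp only [mem_image, mem_filter, mem_univ, true_and] at hs hs'
    obtain ⟨i, _, rfl⟩ := hs
    obtain ⟨j, _, h⟩ := hs'
    simp at h

lemma xz_card {z : E → ZMod q} {B : Finset (Slot E q m0)}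
    (hB : B ∈ xz hd tl q m0 v0 z) : B.card = q := by
  simp only [xz, mem_union, mem_image, mem_filter, mem_univ, true_and, mem_biUnion] at hB
  rcases hB with ⟨e, he, rfl⟩ | ⟨v, hv⟩
  · exact eb_card he
  · exact (grp_mem hv).2

lemma xz_disj {z : E → ZMod q} {B C : Finset (Slot E q m0)}
    (hB : B ∈ xz hd tl q m0 v0 z) (hC : C ∈ xz hd tl q m0 v0 z) (hne : B ≠ C) :
    Disjoint B C := by
  refine Finset.disjoint_left.mpr (fun s hs hs' => ?_)
  have h1 := (mem_xz_slot hd tl v0).mp ⟨hB, hs⟩
  have h2 := (mem_xz_slot hd tl v0).mp ⟨hC, hs'⟩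
  rcases h1 with ⟨h3, e, b, i, rfl, rfl⟩ | ⟨h3, h4, h5⟩ <;>
    rcases h2 with ⟨g3, e', b', i', g4, rfl⟩ | ⟨g3, g4, g5⟩
  · simp only [Sum.inl.injEq, Prod.mk.injEq] at g4
    obtain ⟨g4, _⟩ := g4
    subst g4
    exact hne rfl
  · exact g3 h3
  · exact h3 g3
  · exact Finset.disjoint_left.mp (grp_disj h4 g4 hne) hs hs'

/-- the charges -/
def chg (m0 : ℕ) (v : Vt) : ZMod q :=
  (if v0 = v then (m0 : ZMod q) else 0) -
    ∑ e, ((if hd e = v then (1 : ZMod q) else 0) + if tl e = v then 1 else 0)

lemma sum_not_us_true (z : E → ZMod q) (e : E) :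
    (∑ i : Fin (q - 1), if ¬ us q m0 z (.inl (e, true, i)) then (1 : ZMod q) else 0) =
      -1 - z e := by
  have hval : (z e).val < q := ZMod.val_lt _
  have h1 : ∀ i : Fin (q - 1), (if ¬ us q m0 z (.inl (e, true, i)) then (1 : ZMod q) else 0) =
      1 - if i.val < (z e).val then 1 else 0 := by
    intro i
    by_cases h : i.val < (z e).val
    · have : us q m0 z (.inl (e, true, i)) := h
      simp [h, this]
    · have : ¬ us q m0 z (.inl (e, true, i)) := h
      simp [h, this]
  simp only [h1]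
  rw [Finset.sum_sub_distrib, Finset.sum_boole, card_fin_lt (by omega)]
  simp only [sum_const, card_univ, Fintype.card_fin, nsmul_eq_mul, mul_one]
  have hq : 1 ≤ q := NeZero.one_le
  rw [Nat.cast_sub hq, CharP.cast_eq_zero, ZMod.natCast_val, ZMod.cast_id]
  simp

lemma sum_not_us_false (z : E → ZMod q) (e : E) :
    (∑ i : Fin (q - 1), if ¬ us q m0 z (.inl (e, false, i)) then (1 : ZMod q) else 0) =
      z e - 1 := by
  have hval : (z e).val < q := ZMod.val_lt _
  have hq : 1 ≤ q := NeZero.one_le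
  by_cases he : z e = 0
  · have h1 : ∀ i : Fin (q - 1),
        (if ¬ us q m0 z (.inl (e, false, i)) then (1 : ZMod q) else 0) = 1 := by
      intro i
      rw [if_pos]
      intro h
      exact h.1 he
    simp only [h1, sum_const, card_univ, Fintype.card_fin, nsmul_eq_mul, mul_one]
    rw [Nat.cast_sub hq, CharP.cast_eq_zero, he]
    simp
  · have hval0 : (z e).val ≠ 0 := by rwa [Ne, ZMod.val_eq_zero]
    have h1 : ∀ i : Fin (q - 1),
        (if ¬ us q m0 z (.inl (e, false, i)) then (1 : ZMod q) else 0) =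
        1 - if i.val < q - (z e).val then 1 else 0 := by
      intro i
      by_cases h : i.val < q - (z e).val
      · have : us q m0 z (.inl (e, false, i)) := ⟨he, h⟩
        simp [h, this]
      · have : ¬ us q m0 z (.inl (e, false, i)) := fun h' => h h'.2
        simp [h, this]
    simp only [h1]
    rw [Finset.sum_sub_distrib, Finset.sum_boole, card_fin_lt (by omega)]
    simp only [sum_const, card_univ, Fintype.card_fin, nsmul_eq_mul, mul_one]
    rw [Nat.cast_sub hq, Nat.cast_sub hval.le, CharP.cast_eq_zero, ZMod.natCast_val,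
      ZMod.cast_id]
    ring_nf

lemma lft_card (z : E → ZMod q) (v : Vt) :
    ((lft hd tl q m0 v0 z v).card : ZMod q) =
      chg hd tl v0 m0 v - flow hd tl v z := by
  classical
  have h1 : ((lft hd tl q m0 v0 z v).card : ZMod q) =
      ∑ s, if (¬ us q m0 z s ∧ home hd tl q m0 v0 s = v) then (1 : ZMod q) else 0 := by
    rw [Finset.sum_boole]; rfl
  rw [h1, Fintype.sum_sum_type, Fintype.sum_prod_type]
  have h2 : ∀ e : E, (∑ x : Bool × Fin (q - 1),
      if (¬ us q m0 z (.inl (e, x)) ∧ home hd tl q m0 v0 (.inl (e, x)) = v) then (1 : ZMod q)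
        else 0) =
      (if hd e = v then -1 - z e else 0) + (if tl e = v then z e - 1 else 0) := by
    intro e
    rw [Fintype.sum_prod_type, Fintype.sum_bool]
    congr 1
    · by_cases he : hd e = v
      · rw [if_pos he, ← sum_not_us_true (m0 := m0)]
        refine Finset.sum_congr rfl (fun i _ => ?_)
        simp only [home, he, and_true]
      · rw [if_neg he]
        apply Finset.sum_eq_zero
        intro i _
        rw [if_neg]
        rintro ⟨_, h⟩
        exact he h
    · by_cases he : tl e = v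
      · rw [if_pos he, ← sum_not_us_false (m0 := m0)]
        refine Finset.sum_congr rfl (fun i _ => ?_)
        simp only [home, he, and_true]
      · rw [if_neg he]
        apply Finset.sum_eq_zero
        intro i _
        rw [if_neg]
        rintro ⟨_, h⟩
        exact he h
  have h3 : (∑ j : Fin m0, if (¬ us q m0 z (.inr j) ∧ home hd tl q m0 v0 (.inr j) = v) then
      (1 : ZMod q) else 0) = if v0 = v then (m0 : ZMod q) else 0 := by
    by_cases hv : v0 = v
    · rw [if_pos hv]
      have h4 : ∀ j : Fin m0, (if (¬ us q m0 z (.inr j) ∧ home hd tl q m0 v0 (.inr j) = v) then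
          (1 : ZMod q) else 0) = 1 := by
        intro j
        rw [if_pos]
        exact ⟨by simp [us], hv⟩
      simp [h4]
    · rw [if_neg hv]
      apply Finset.sum_eq_zero
      intro j _
      rw [if_neg]
      rintro ⟨_, h⟩
      exact hv h
  rw [Finset.sum_congr rfl (fun e _ => h2 e), h3, chg, flow]
  have h5 : ∀ e : E, dd hd tl (Pi.single v (1 : ZMod q)) e * z e =
      (if hd e = v then z e else 0) - (if tl e = v then z e else 0) := by
    intro e
    simp only [dd, Pi.single_apply]
    split_ifs <;> simp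
  rw [Finset.sum_congr rfl (fun e _ => h5 e)]
  have h6 : ∀ e : E, ((if hd e = v then -1 - z e else 0) + (if tl e = v then z e - 1 else 0) :
      ZMod q) = -(((if hd e = v then (1 : ZMod q) else 0) + if tl e = v then 1 else 0)) -
      ((if hd e = v then z e else 0) - (if tl e = v then z e else 0)) := by
    intro e
    split_ifs <;> ring
  rw [Finset.sum_congr rfl (fun e _ => h6 e), Finset.sum_sub_distrib, Finset.sum_neg_distrib]
  ring

lemma uncovered_slot (hq : 1 ≤ q) {z : E → ZMod q} {s : Slot E q m0}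
    (h : ∀ B ∈ xz hd tl q m0 v0 z, s ∉ B) :
    flow hd tl (home hd tl q m0 v0 s) z ≠ chg hd tl v0 m0 (home hd tl q m0 v0 s) := by
  intro hf
  have h1 := lft_card hd tl v0 (m0 := m0) z (home hd tl q m0 v0 s)
  rw [hf, sub_self, ZMod.natCast_eq_zero_iff] at h1
  by_cases hs : us q m0 z s
  · obtain ⟨e, b, i, rfl, he⟩ := us_edge hs
    have := (mem_xz_slot hd tl v0 (z := z) (s := .inl (e, b, i)) (B := eb q m0 z e)).mpr
      (Or.inl ⟨hs, e, b, i, rfl, rfl⟩)
    exact h _ this.1 this.2
  · have hmem : s ∈ lft hd tl q m0 v0 z (home hd tl q m0 v0 s) := by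
      simp only [lft, mem_filter, mem_univ, true_and]
      exact ⟨hs, trivial⟩
    obtain ⟨B, hB, hsB⟩ := grp_cover hq h1 hmem
    have := (mem_xz_slot hd tl v0 (z := z) (s := s) (B := B)).mpr (Or.inr ⟨hs, hB, hsB⟩)
    exact h _ this.1 this.2

end slots

end Pool.Agent.Helper600R2.Cnt
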