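import Pool.Agent.Helper600R2.Semantic

/-!
The degree argument with negligible sets.
-/

set_option linter.unusedSectionVars false

namespace Pool.Agent.Helper600R2.Cnt

open Finset Pool.Agent.Helper600R2

section

variable {Vt E : Type*} [Fintype Vt] [Fintype E] [DecidableEq Vt] (hd tl : E → Vt) {q : ℕ}
  [NeZero q] {K : Type*} [Field K] (ψ : AddChar (ZMod q) K)

lemma prod_null {ι : Type*} [DecidableEq ι] (b : Vt → ZMod q) (w : ℕ) (s : Finset ι)
    (h : ι → (E → ZMod q) → K) (h1 : ∀ i ∈ s, h i ∈ DC ψ w)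
    (h2 : ∀ i ∈ s, 1 - h i ∈ NF hd tl ψ b w) :
    (∏ i ∈ s, h i) ∈ DC ψ (s.card * w) ∧
      (1 : (E → ZMod q) → K) - ∏ i ∈ s, h i ∈ NF hd tl ψ b (s.card * w) := by
  induction s using Finset.induction_on with
  | empty =>
    simp only [prod_empty, sub_self]
    exact ⟨one_mem_DC ψ _, Submodule.zero_mem _⟩
  | insert a s ha ih =>
    obtain ⟨i1, i2⟩ := ih (fun i hi => h1 i (mem_insert_of_mem hi))
      (fun i hi => h2 i (mem_insert_of_mem hi))
    rw [prod_insert ha, card_insert_of_notMem ha, add_mul, one_mul]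
    refine ⟨?_, ?_⟩
    · rw [add_comm]
      exact DC_mul ψ (h1 a (mem_insert_self _ _)) i1
    · have h4 : (1 : (E → ZMod q) → K) - h a * ∏ j ∈ s, h j =
          (1 - h a) * (∏ j ∈ s, h j) + (1 - ∏ j ∈ s, h j) := by
        ring
      rw [h4]
      refine Submodule.add_mem _ ?_ (NF_mono hd tl ψ (by omega) i2)
      exact NF_mono hd tl ψ (by omega) (NF_mul hd tl ψ (h2 a (mem_insert_self _ _)) i1)

/-- no sound sequence of low degree functions, up to negligible sets, contains the function
that is identically false -/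
theorem no_low_degree_null (hψ : ψ.IsPrimitive) (b : Vt → ZMod q)
    (hVt : 3 < Fintype.card Vt) (w k : ℕ)
    (hconn : ∀ u : Vt → ZMod q, dd hd tl u = 0 → (nsupp u).card < Fintype.card Vt → u = 0)
    (hexp : ∀ u : Vt → ZMod q, (nsupp (dd hd tl u)).card ≤ 2 * ((k + 1) * w) →
      3 * (nsupp u).card < 2 * Fintype.card Vt → 3 * (nsupp u).card < Fintype.card Vt)
    {L : ℕ} (f : Fin L → (E → ZMod q) → Bool)
    (hf : ∀ i, ∃ (P : Finset (Fin L)) (Q : Finset ((E → ZMod q) → Bool)),
      P.card + Q.card ≤ k ∧ (∀ j ∈ P, j < i) ∧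
      (∀ g ∈ Q, toK K g ∈ DC ψ w ∧ toK K g ∈ NF hd tl ψ b w) ∧
      ∀ z, (∀ j ∈ P, f j z = true) → (∀ g ∈ Q, g z = false) → f i z = true)
    (hdeg : ∀ i, toK K (f i) ∈ DC ψ w) (i : Fin L) : ∃ x, f i x = true := by
  classical
  obtain ⟨R, hR1, hR2, hR3⟩ := exists_reduction hd tl ψ hψ b ((k + 1) * w)
    (by omega) hconn hexp
  have hw : w ≤ (k + 1) * w := Nat.le_mul_of_pos_left w (Nat.succ_pos k)
  have hdown : ∀ g ∈ DC ψ w, g ∈ NF hd tl ψ b ((k + 1) * w) → g ∈ NF hd tl ψ b w := by
    intro g hg hg'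
    have h1 := hR2 w hw g hg
    rw [hR1 g hg', sub_zero] at h1
    exact h1
  have hone : ∀ i, (1 : (E → ZMod q) → K) - toK K (f i) ∈ DC ψ w := fun i =>
    Submodule.sub_mem _ (one_mem_DC ψ w) (hdeg i)
  have main : ∀ n : ℕ, ∀ i : Fin L, i.val = n →
      (1 : (E → ZMod q) → K) - toK K (f i) ∈ NF hd tl ψ b w := by
    intro n
    induction n using Nat.strong_induction_on with
    | _ n ih =>
      intro i hi
      apply hdown _ (hone i)
      obtain ⟨P, Q, hPQ, hPlt, hQ, hstep⟩ := hf i
      obtain ⟨a1, a2⟩ := prod_null hd tl ψ b w P (fun j => toK K (f j))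
        (fun j _ => hdeg j) (fun j hj => by
          have := hPlt j hj
          exact ih j.val (by have := Fin.lt_def.mp this; omega) j rfl)
      obtain ⟨b1, b2⟩ := prod_null hd tl ψ b w Q (fun g => 1 - toK K g)
        (fun g hg => Submodule.sub_mem _ (one_mem_DC ψ w) (hQ g hg).1)
        (fun g hg => by rw [sub_sub_cancel]; exact (hQ g hg).2)
      have h1 : (1 : (E → ZMod q) → K) -
          (∏ j ∈ P, toK K (f j)) * (∏ g ∈ Q, (1 - toK K g)) ∈
          NF hd tl ψ b (P.card * w + Q.card * w) := by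
        have h4 : (1 : (E → ZMod q) → K) -
            (∏ j ∈ P, toK K (f j)) * (∏ g ∈ Q, (1 - toK K g)) =
            (1 - ∏ j ∈ P, toK K (f j)) * (∏ g ∈ Q, (1 - toK K g)) +
              (1 - ∏ g ∈ Q, (1 - toK K g)) := by
          ring
        rw [h4]
        exact Submodule.add_mem _ (NF_mul hd tl ψ a2 b1) (NF_mono hd tl ψ (by omega) b2)
      have h2 := NF_mul hd tl ψ h1 (hone i)
      have h3 : ((1 : (E → ZMod q) → K) -
          (∏ j ∈ P, toK K (f j)) * (∏ g ∈ Q, (1 - toK K g))) * (1 - toK K (f i)) =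
          1 - toK K (f i) := by
        funext z
        by_cases hz : f i z = true
        · simp [toK, hz]
        · have h5 : ((∏ j ∈ P, toK K (f j)) * (∏ g ∈ Q, (1 - toK K g))) z = 0 := by
            rw [Pi.mul_apply, Finset.prod_apply, Finset.prod_apply]
            by_cases hP : ∀ j ∈ P, f j z = true
            · have : ∃ g ∈ Q, g z = true := by
                by_contra hcon
                push Not at hcon
                exact hz (hstep z hP (fun g hg => by simpa using hcon g hg))
              obtain ⟨g, hg, hgz⟩ := this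
              rw [Finset.prod_eq_zero (s := Q) hg (by simp [toK, hgz]), mul_zero]
            · push Not at hP
              obtain ⟨j, hj, hjz⟩ := hP
              rw [Finset.prod_eq_zero (s := P) hj (by simp [toK, hjz]), zero_mul]
          simp only [Pi.mul_apply, Pi.sub_apply, Pi.one_apply] at h5 ⊢
          rw [h5]
          ring
      rw [h3] at h2
      refine NF_mono hd tl ψ ?_ h2
      have : (P.card + Q.card) * w ≤ k * w := Nat.mul_le_mul_right w hPQ
      nlinarith
  by_contra hcon
  push Not at hcon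
  have h0 : toK K (f i) = 0 := by
    funext z
    simp [toK, hcon z]
  have h1 := main i.val i rfl
  rw [h0, sub_zero] at h1
  exact hR3 (hR1 1 (NF_mono hd tl ψ hw h1))

end

end Pool.Agent.Helper600R2.Cnt
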