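import Pool.Agent.Helper600R2.Cnt.Deg
import Pool.Agent.Helper600R2.Cnt.Null

/-!
No refutation, given a partial partition for which all formulas have shallow trees.
-/

set_option linter.unusedSectionVars false

namespace Pool.Agent.Helper600R2.Cnt

open Finset Pool.Agent.Helper600R2

section

variable {Vt E : Type} [Fintype Vt] [Fintype E] [DecidableEq Vt] [DecidableEq E]
  (hd tl : E → Vt) {q : ℕ} [NeZero q] {K : Type*} [Field K] (ψ : AddChar (ZMod q) K)
  {p : ℕ} [Fact p.Prime] [CharP K p]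

/-- the degree used in the final argument -/
def ww (k p G d : ℕ) : ℕ := 8 * k + 12 + G * (p * AA k p G d) + AA k p G d

lemma axiom_forced {N : ℕ} {φ : Fm p (Var q N)} (h : IsAxiom φ) :
    ∃ (t : ℕ) (φs : Fin t → Fm p (Var q N)) (u : Fin N), φ = .or t φs ∧
      ∀ (tvf : MF N → Bool) (k : ℕ) (B : Finset (Fin N)), B.card = q → u ∈ B → ∀ π, IsPP q π → B ∈ π →
        ∃ j, W q k (rd (fun a : Var q N => a.1) tvf (φs j)) true π := by
  obtain ⟨t, φs, rfl, h | h⟩ := h
  · obtain ⟨v, hv⟩ := h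
    refine ⟨t, φs, v, rfl, ?_⟩
    intro tvf k B hB hvB π _ hBπ
    obtain ⟨j, hj⟩ := hv ⟨B, hB⟩ hvB
    refine ⟨j, ?_⟩
    rw [hj]
    simp only [rd, W, if_true]
    exact hBπ
  · obtain ⟨e, f, hef, hdis, ⟨j, hj⟩, ⟨j', hj'⟩⟩ := h
    obtain ⟨u, hue, huf⟩ := Finset.not_disjoint_iff.mp hdis
    refine ⟨t, φs, u, rfl, ?_⟩
    intro tvf k B hB huB π hπ hBπ
    have key : ∀ g : Var q N, u ∈ g.1 → B ≠ g.1 →
        W q k (MF.neg (MF.var g.1)) true π := by
      intro g hug hne
      simp only [W, Bool.not_true, Bool.false_eq_true, if_false]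
      refine ⟨fun hg => hne (hπ.eq_of_mem hBπ hg huB hug), Or.inr ?_⟩
      exact Finset.not_disjoint_iff.mpr ⟨u, hug, mem_cov.mpr ⟨B, hBπ, huB⟩⟩
    by_cases hBe : B = e.1
    · have hBf : B ≠ f.1 := by
        intro h
        exact hef (Subtype.ext (hBe.symm.trans h))
      refine ⟨j', ?_⟩
      rw [hj']
      exact key f huf hBf
    · refine ⟨j, ?_⟩
      rw [hj]
      exact key e hue hBe

theorem no_refutation (hψ : ψ.IsPrimitive) (hqK : (q : K) ≠ 0) (hVt : 3 < Fintype.card Vt)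
    (hinc : ∀ v : Vt, (inc hd tl v).card ≤ 4) (c d k G : ℕ) (hk : 1 ≤ k)
    (hconn : ∀ u : Vt → ZMod q, dd hd tl u = 0 → (nsupp u).card < Fintype.card Vt → u = 0)
    (hexp : ∀ u : Vt → ZMod q,
      (nsupp (dd hd tl u)).card ≤ 2 * ((2 * c + 1 + 1) * ww k p G d) →
      3 * (nsupp u).card < 2 * Fintype.card Vt → 3 * (nsupp u).card < Fintype.card Vt)
    {N : ℕ} (ρ : PS N) (hρ : IsPP q ρ)
    (hN : Fintype.card E * (2 * (q - 1)) + q * ρ.card ≤ N)
    {T : ℕ} (L : Fin T → Fm p (Var q N)) (href : IsRefutation c L)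
    (hdepth : ∀ φ ∈ allSub L, φ.depth ≤ d) (hG : ∀ φ ∈ allSub L, φ.tops.card ≤ G)
    (hroom : q * (ρ.card + 2 * k + k * d) ≤ N)
    (hT : ∀ χ ∈ fam (fun a : Var q N => a.1) (allSub L), HasT q k χ ρ k) : False := by
  classical
  obtain ⟨b, y, hGood⟩ := exists_good hd tl ψ hψ hqK hVt hinc N ρ hρ hN
  set blk : Var q N → Finset (Fin N) := fun a => a.1 with hblk
  have h𝒰 : ClosedFm (allSub L) := allSub_closed L
  let f : Fin T → (E → ZMod q) → Bool := fun i z => Vz q k ρ blk y z (L i)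
  -- trees exist for all values
  have hrdT : ∀ z, ∀ φ ∈ allSub L, HasT q k (rd blk (tv q k ρ (y z)) φ) ρ k := by
    intro z φ hφ
    rw [rd_eq_subst (fun b => tv_cst (y z) b)]
    exact hT _ (mem_fam blk hφ _)
  have hrdD : ∀ z, ∀ φ ∈ allSub L, (rd blk (tv q k ρ (y z)) φ).dep ≤ d := by
    intro z φ hφ
    rw [rd_eq_subst (fun b => tv_cst (y z) b)]
    exact (subst_dep blk _ φ).trans (hdepth φ hφ)
  have hroom' : ∀ (z : E → ZMod q), ∀ φ ∈ allSub L,
      q * (ρ.card + 2 * k + k * (rd blk (tv q k ρ (y z)) φ).dep) ≤ N := by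
    intro z φ hφ
    refine (Nat.mul_le_mul_left q ?_).trans hroom
    exact Nat.add_le_add_left (Nat.mul_le_mul_left k (hrdD z φ hφ)) _
  -- failure functions
  have hfail1 := fun (φ : Fm p (Var q N)) (hφ : φ ∈ allSub L) =>
    fail_null (p := p) (blk := blk) (k := k) hψ hqK hGood h𝒰 G hG d hdepth φ hφ (k + k)
      (ck q k ρ) (fun χ => ck_ht χ)
  have hfail2 := fun (φ : Fm p (Var q N)) (hφ : φ ∈ allSub L) (u : Fin N) =>
    fail_null (p := p) (blk := blk) (k := k) hψ hqK hGood h𝒰 G hG d hdepth φ hφ (k + 1)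
      (ckA q k ρ u) (fun χ => ckA_ht u χ)
  have hdeg : ∀ i, toK K (f i) ∈ DC ψ (ww k p G d) := by
    intro i
    apply J_le_DC ψ hψ hqK
    refine J_mono ?_ ((Vz_deg hGood h𝒰 G hG d).1 (L i) (mem_allSub L i)
      (hdepth _ (mem_allSub L i)))
    unfold ww
    omega
  have hsound : ∀ i, ∃ (P : Finset (Fin T)) (Q : Finset ((E → ZMod q) → Bool)),
      P.card + Q.card ≤ 2 * c + 1 ∧ (∀ j ∈ P, j < i) ∧
      (∀ g ∈ Q, toK K g ∈ DC ψ (ww k p G d) ∧ toK K g ∈ NF hd tl ψ b (ww k p G d)) ∧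
      ∀ z, (∀ j ∈ P, f j z = true) → (∀ g ∈ Q, g z = false) → f i z = true := by
    intro i
    rcases href.2 i with hax | ⟨P, Q, hP, hQ, hlt, hQU, hinf⟩
    · -- axioms
      obtain ⟨t, φs, u, hLi, hforced⟩ := axiom_forced hax
      have hmem : Fm.or t φs ∈ allSub L := hLi ▸ mem_allSub L i
      refine ⟨∅, {fun z => ((ckA q k ρ u (rd blk (tv q k ρ (y z)) (.or t φs))).eval
        (y z)).isNone}, by simp, by simp, ?_, ?_⟩
      · intro g hg
        rw [mem_singleton] at hg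
        subst hg
        obtain ⟨g1, g2⟩ := hfail2 (.or t φs) hmem u
        refine ⟨DC_mono ψ ?_ g2, NF_mono hd tl ψ ?_ g1⟩ <;>
        · unfold ww
          omega
      · intro z _ hQz
        have h1 := hQz _ (mem_singleton_self _)
        show Vz q k ρ blk y z (L i) = true
        rw [hLi]
        have h2 := hroom' z _ hmem
        have h3 := hrdT z _ hmem
        exact check_ax hk (hGood.pp z) (hGood.ext z) h2 h3 u
          (hforced (tv q k ρ (y z)) k) h1
    · refine ⟨P, Q.image (fun χ z => ((ck q k ρ (rd blk (tv q k ρ (y z)) χ)).eval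
        (y z)).isNone), ?_, hlt, ?_, ?_⟩
      · have := card_image_le (s := Q) (f := fun (χ : Fm p (Var q N)) (z : E → ZMod q) =>
          ((ck q k ρ (rd blk (tv q k ρ (y z)) χ)).eval (y z)).isNone)
        omega
      · intro g hg
        obtain ⟨χ, hχ, rfl⟩ := mem_image.mp hg
        obtain ⟨g1, g2⟩ := hfail1 χ (hQU hχ)
        refine ⟨DC_mono ψ ?_ g2, NF_mono hd tl ψ ?_ g1⟩ <;>
        · unfold ww
          omega
      · intro z hPz hQz
        apply hinf (Vz q k ρ blk y z) (Vz_respMod z)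
        · intro χ hχ
          have h1 : ((ck q k ρ (rd blk (tv q k ρ (y z)) χ)).eval (y z)).isNone = false :=
            hQz _ (mem_image_of_mem _ hχ)
          have hχU := hQU hχ
          cases χ with
          | var a => trivial
          | md i t φs => trivial
          | neg φ =>
            have hφ := h𝒰.neg φ hχU
            exact check_neg (hGood.pp z) (hGood.ext z) (hroom' z φ hφ) (hrdT z φ hφ) h1
          | or t φs =>
            exact check_or (hGood.pp z) (hGood.ext z) (hroom' z _ hχU) (hrdT z _ hχU)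
              (fun j => hrdT z _ (h𝒰.or t φs hχU j)) h1
        · exact hPz
  obtain ⟨⟨i₀, f₀, hi₀⟩, _⟩ := href
  obtain ⟨z, hz⟩ := no_low_degree_null hd tl ψ hψ b hVt (ww k p G d) (2 * c + 1) hconn hexp f
    hsound hdeg i₀
  have h1 : tv q k ρ (y z) (rd blk (tv q k ρ (y z)) (L i₀)) = true := hz
  rw [hi₀, tv_iff] at h1
  obtain ⟨σ, _, hσ⟩ := h1
  obtain ⟨j, _⟩ := W_or_true.mp hσ
  exact j.elim0

end

end Pool.Agent.Helper600R2.Cnt
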