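import Mathlib

/-!
Partial partitions of `Fin N` into blocks of size `q`, and decision trees over them.
-/

set_option linter.unusedSectionVars false

namespace Pool.Agent.Helper600R2.Cnt

open Finset

variable {N : ℕ}

/-- sets of blocks -/
abbrev PS (N : ℕ) : Type := Finset (Finset (Fin N))

/-- partial partitions of `Fin N` into `q`-sets -/
def IsPP (q : ℕ) (ρ : PS N) : Prop :=
  (∀ B ∈ ρ, B.card = q) ∧ ∀ B ∈ ρ, ∀ C ∈ ρ, B ≠ C → Disjoint B C

/-- covered elements -/
def cov (ρ : PS N) : Finset (Fin N) := ρ.biUnion id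

/-- blocks meeting `X` -/
def mt (X : Finset (Fin N)) (ρ : PS N) : PS N := ρ.filter (fun B => ¬ Disjoint B X)

lemma mem_cov {ρ : PS N} {x : Fin N} : x ∈ cov ρ ↔ ∃ B ∈ ρ, x ∈ B := by
  simp [cov]

lemma cov_mono {ρ σ : PS N} (h : ρ ⊆ σ) : cov ρ ⊆ cov σ := by
  intro x hx
  rw [mem_cov] at hx ⊢
  obtain ⟨B, hB, hx⟩ := hx
  exact ⟨B, h hB, hx⟩

lemma cov_union (ρ σ : PS N) : cov (ρ ∪ σ) = cov ρ ∪ cov σ := by
  ext x
  simp only [mem_cov, mem_union]
  constructor
  · rintro ⟨B, hB | hB, hx⟩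
    · exact Or.inl ⟨B, hB, hx⟩
    · exact Or.inr ⟨B, hB, hx⟩
  · rintro (⟨B, hB, hx⟩ | ⟨B, hB, hx⟩)
    · exact ⟨B, Or.inl hB, hx⟩
    · exact ⟨B, Or.inr hB, hx⟩

lemma IsPP.mono {q : ℕ} {ρ σ : PS N} (h : IsPP q σ) (hs : ρ ⊆ σ) : IsPP q ρ :=
  ⟨fun B hB => h.1 B (hs hB), fun B hB C hC hne => h.2 B (hs hB) C (hs hC) hne⟩

lemma IsPP.eq_of_mem {q : ℕ} {ρ : PS N} (h : IsPP q ρ) {B C : Finset (Fin N)} (hB : B ∈ ρ)
    (hC : C ∈ ρ) {x : Fin N} (hx : x ∈ B) (hx' : x ∈ C) : B = C := by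
  by_contra hne
  exact Finset.disjoint_left.mp (h.2 B hB C hC hne) hx hx'

lemma IsPP.empty (q : ℕ) : IsPP q (∅ : PS N) := ⟨by simp, by simp⟩

lemma IsPP.insert {q : ℕ} {ρ : PS N} (h : IsPP q ρ) {B : Finset (Fin N)} (hB : B.card = q)
    (hd : Disjoint B (cov ρ)) : IsPP q (insert B ρ) := by
  refine ⟨?_, ?_⟩
  · intro C hC
    rw [mem_insert] at hC
    rcases hC with rfl | hC
    · exact hB
    · exact h.1 C hC
  · have key : ∀ C ∈ ρ, Disjoint B C := by
      intro C hC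
      refine Finset.disjoint_left.mpr (fun x hx hx' => ?_)
      exact Finset.disjoint_left.mp hd hx (mem_cov.mpr ⟨C, hC, hx'⟩)
    intro C hC C' hC' hne
    rw [mem_insert] at hC hC'
    rcases hC with rfl | hC <;> rcases hC' with rfl | hC'
    · exact absurd rfl hne
    · exact key C' hC'
    · exact (key C hC).symm
    · exact h.2 C hC C' hC' hne

lemma card_cov {q : ℕ} {ρ : PS N} (h : IsPP q ρ) : (cov ρ).card = q * ρ.card := by
  rw [cov, card_biUnion]
  · have h1 : ∑ B ∈ ρ, (id B : Finset (Fin N)).card = ∑ _B ∈ ρ, q :=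
      Finset.sum_congr rfl (fun B hB => h.1 B hB)
    rw [h1]
    simp [mul_comm]
  · intro B hB C hC hne
    exact h.2 B hB C hC hne

lemma card_free {q : ℕ} {ρ : PS N} (h : IsPP q ρ) :
    (univ \ cov ρ).card + q * ρ.card = N := by
  rw [← card_cov h, card_sdiff_add_card_eq_card (subset_univ _), card_univ, Fintype.card_fin]

lemma mt_subset (X : Finset (Fin N)) (ρ : PS N) : mt X ρ ⊆ ρ := filter_subset _ _

lemma mem_mt {X : Finset (Fin N)} {ρ : PS N} {B : Finset (Fin N)} :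
    B ∈ mt X ρ ↔ B ∈ ρ ∧ ∃ x ∈ X, x ∈ B := by
  simp only [mt, mem_filter, Finset.not_disjoint_iff]
  constructor
  · rintro ⟨h, x, hx, hx'⟩; exact ⟨h, x, hx', hx⟩
  · rintro ⟨h, x, hx, hx'⟩; exact ⟨h, x, hx', hx⟩

lemma card_mt_le {q : ℕ} {ρ : PS N} (h : IsPP q ρ) (X : Finset (Fin N)) :
    (mt X ρ).card ≤ X.card := by
  classical
  have h1 : ∀ B ∈ mt X ρ, ∃ x ∈ X, x ∈ B := fun B hB => (mem_mt.mp hB).2
  rcases (mt X ρ).eq_empty_or_nonempty with h0 | ⟨B0, hB0⟩
  · rw [h0]; simp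
  have : Nonempty (Fin N) := ⟨(h1 B0 hB0).choose⟩
  choose! f hf using h1
  refine card_le_card_of_injOn f (fun B hB => (hf B hB).1) ?_
  intro B hB C hC hBC
  have hB' := mem_coe.mp hB
  have hC' := mem_coe.mp hC
  refine h.eq_of_mem (mt_subset _ _ hB') (mt_subset _ _ hC') (hf B hB').2 ?_
  rw [hBC]
  exact (hf C hC').2

lemma cov_mt {X : Finset (Fin N)} {ρ : PS N} (h : X ⊆ cov ρ) : X ⊆ cov (mt X ρ) := by
  intro x hx
  obtain ⟨B, hB, hxB⟩ := mem_cov.mp (h hx)
  exact mem_cov.mpr ⟨B, mem_mt.mpr ⟨hB, x, hx, hxB⟩, hxB⟩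

lemma mt_stable {q : ℕ} {X : Finset (Fin N)} {ρ σ : PS N} (hσ : IsPP q σ) (hs : ρ ⊆ σ)
    (hX : X ⊆ cov ρ) : mt X σ = mt X ρ := by
  ext B
  rw [mem_mt, mem_mt]
  constructor
  · rintro ⟨hB, x, hx, hxB⟩
    obtain ⟨C, hC, hxC⟩ := mem_cov.mp (hX hx)
    have := hσ.eq_of_mem hB (hs hC) hxB hxC
    subst this
    exact ⟨hC, x, hx, hxB⟩
  · rintro ⟨hB, h⟩
    exact ⟨hs hB, h⟩

/-- covering a set -/
lemma exists_cover {q : ℕ} (hq : 1 ≤ q) (X : Finset (Fin N)) (π : PS N) (hπ : IsPP q π)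
    (h : q * (π.card + X.card) ≤ N) :
    ∃ y : PS N, π ⊆ y ∧ IsPP q y ∧ X ⊆ cov y ∧ y.card ≤ π.card + X.card := by
  classical
  induction X using Finset.induction_on with
  | empty => exact ⟨π, subset_rfl, hπ, by simp, by simp⟩
  | insert a X ha ih =>
    rw [card_insert_of_notMem ha] at h ⊢
    have h' : q * (π.card + X.card) + q ≤ N := by
      calc q * (π.card + X.card) + q = q * (π.card + (X.card + 1)) := by ring
        _ ≤ N := h
    obtain ⟨y, hy1, hy2, hy3, hy4⟩ := ih (by omega)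
    by_cases hay : a ∈ cov y
    · refine ⟨y, hy1, hy2, ?_, by omega⟩
      intro x hx
      rw [mem_insert] at hx
      rcases hx with rfl | hx
      · exact hay
      · exact hy3 hx
    · have hfree := card_free hy2
      have h5 : q * y.card ≤ q * (π.card + X.card) := Nat.mul_le_mul_left q hy4
      obtain ⟨B, hB1, hB2, hB3⟩ := Finset.exists_subsuperset_card_eq (s := {a})
        (t := univ \ cov y) (n := q) (by simpa using hay) (by simpa using hq) (by omega)
      have hdis : Disjoint B (cov y) := by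
        refine Finset.disjoint_left.mpr (fun x hx hx' => ?_)
        exact (mem_sdiff.mp (hB2 hx)).2 hx'
      refine ⟨insert B y, hy1.trans (subset_insert _ _), hy2.insert hB3 hdis, ?_, ?_⟩
      · intro x hx
        rw [mem_insert] at hx
        rcases hx with rfl | hx
        · exact mem_cov.mpr ⟨B, mem_insert_self _ _, hB1 (mem_singleton_self _)⟩
        · exact cov_mono (subset_insert _ _) (hy3 hx)
      · have := card_insert_le B y
        omega

/-- decision trees: a node asks for the blocks meeting a set of elements -/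
inductive DT (N : ℕ) (β : Type) : Type
  | leaf (x : β) : DT N β
  | node (X : Finset (Fin N)) (ch : PS N → DT N β) : DT N β

/-- evaluation of a decision tree -/
def DT.eval {β : Type} (y : PS N) : DT N β → Option β
  | .leaf x => some x
  | .node X ch => if X ⊆ cov y then (ch (mt X y)).eval y else none

/-- height at most `k` -/
def DT.HtLe {β : Type} : DT N β → ℕ → Prop
  | .leaf _, _ => True
  | .node X ch, k => ∃ k', X.card + k' ≤ k ∧ ∀ π, (ch π).HtLe k'

/-- attaching trees at the leaves -/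
def DT.bind {β γ : Type} (f : β → DT N γ) : DT N β → DT N γ
  | .leaf x => f x
  | .node X ch => .node X (fun π => (ch π).bind f)

lemma DT.eval_bind {β γ : Type} (f : β → DT N γ) (y : PS N) (T : DT N β) :
    (T.bind f).eval y = (T.eval y).bind (fun x => (f x).eval y) := by
  induction T with
  | leaf x => rfl
  | node X ch ih =>
    simp only [DT.bind, DT.eval]
    by_cases h : X ⊆ cov y
    · rw [if_pos h, if_pos h]
      exact ih _
    · rw [if_neg h, if_neg h]
      rfl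

lemma DT.HtLe.mono {β : Type} {T : DT N β} {k k' : ℕ} (h : T.HtLe k) (hk : k ≤ k') :
    T.HtLe k' := by
  cases T with
  | leaf x => trivial
  | node X ch =>
    obtain ⟨l, h1, h2⟩ := h
    exact ⟨l, h1.trans hk, h2⟩

lemma DT.HtLe.bind {β γ : Type} {f : β → DT N γ} {l : ℕ} (hf : ∀ x, (f x).HtLe l)
    {T : DT N β} : ∀ {k : ℕ}, T.HtLe k → (T.bind f).HtLe (k + l) := by
  induction T with
  | leaf x => intro k _; exact (hf x).mono (Nat.le_add_left _ _)
  | node X ch ih =>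
    rintro k ⟨k', h1, h2⟩
    exact ⟨k' + l, by omega, fun π => ih π (h2 π)⟩

/-- every partial partition with enough room can be extended so that the tree succeeds -/
lemma DT.exists_eval {β : Type} {q : ℕ} (hq : 1 ≤ q) (T : DT N β) : ∀ (k : ℕ) (π : PS N),
    T.HtLe k → IsPP q π → q * (π.card + k) ≤ N →
    ∃ y x, π ⊆ y ∧ IsPP q y ∧ T.eval y = some x := by
  induction T with
  | leaf x =>
    intro k π _ hπ _
    exact ⟨π, x, subset_rfl, hπ, rfl⟩
  | node X ch ih =>
    rintro k π ⟨k', h1, h2⟩ hπ hN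
    obtain ⟨y1, hy1, hy2, hy3, hy4⟩ := exists_cover hq X π hπ
      ((Nat.mul_le_mul_left q (by omega)).trans hN)
    obtain ⟨y, x, hy5, hy6, hy7⟩ := ih (mt X y1) k' y1 (h2 _) hy2
      ((Nat.mul_le_mul_left q (by omega)).trans hN)
    refine ⟨y, x, hy1.trans hy5, hy6, ?_⟩
    rw [DT.eval, if_pos (hy3.trans (cov_mono hy5)), mt_stable hy6 hy5 hy3]
    exact hy7

end Pool.Agent.Helper600R2.Cnt
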