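import Pool.Agent.Helper600R2.Cnt.Enc

/-!
The switching lemma for partial partitions.
-/

set_option linter.unusedSectionVars false

namespace Pool.Agent.Helper600R2.Cnt

open Finset

variable {N : ℕ}

open Classical in
/-- partial partitions with `b` blocks that extend `σ` -/
noncomputable def QQ (q : ℕ) (σ : PS N) (b : ℕ) : Finset (PS N) :=
  univ.filter (fun ρ => IsPP q ρ ∧ σ ⊆ ρ ∧ ρ.card = b)

lemma mem_QQ {q : ℕ} {σ ρ : PS N} {b : ℕ} : ρ ∈ QQ q σ b ↔ IsPP q ρ ∧ σ ⊆ ρ ∧ ρ.card = b := by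
  classical
  simp [QQ]

lemma QQ_nonempty {q : ℕ} (hq : 1 ≤ q) {σ : PS N} (hσ : IsPP q σ) : ∀ (i : ℕ),
    q * (σ.card + i) ≤ N → (QQ q σ (σ.card + i)).Nonempty := by
  classical
  intro i
  induction i with
  | zero => intro _; exact ⟨σ, mem_QQ.mpr ⟨hσ, subset_rfl, rfl⟩⟩
  | succ i ih =>
    intro h
    have h' : q * (σ.card + i) + q ≤ N := by
      calc q * (σ.card + i) + q = q * (σ.card + (i + 1)) := by ring
        _ ≤ N := h
    obtain ⟨ρ, hρ⟩ := ih (by omega)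
    obtain ⟨h1, h2, h3⟩ := mem_QQ.mp hρ
    have hfree := card_free h1
    rw [h3] at hfree
    obtain ⟨B, hB2, hB3⟩ := Finset.exists_subset_card_eq (s := univ \ cov ρ) (n := q) (by omega)
    have hdis : Disjoint B (cov ρ) := by
      refine Finset.disjoint_left.mpr (fun x hx hx' => ?_)
      exact (mem_sdiff.mp (hB2 hx)).2 hx'
    refine ⟨insert B ρ, mem_QQ.mpr ⟨h1.insert hB3 hdis, h2.trans (subset_insert _ _), ?_⟩⟩
    rw [card_insert_of_notMem, h3]
    · ring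
    · intro hB
      obtain ⟨x, hx⟩ : B.Nonempty := by rw [← card_pos]; omega
      exact Finset.disjoint_left.mp hdis hx (mem_cov.mpr ⟨B, hB, hx⟩)

lemma QQ_succ {q : ℕ} (σ : PS N) (b : ℕ) (hb : σ.card ≤ b) :
    (QQ q σ (b + 1)).card * (b + 1 - σ.card) ≤ (QQ q σ b).card * (N - q * b) ^ q := by
  classical
  let S1 : Finset (Σ _ : PS N, Finset (Fin N)) := (QQ q σ (b + 1)).sigma (fun ρ => ρ \ σ)
  let S2 : Finset (Σ _ : PS N, Finset (Fin N)) :=
    (QQ q σ b).sigma (fun ρ => powersetCard q (univ \ cov ρ))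
  have h1 : S1.card = (QQ q σ (b + 1)).card * (b + 1 - σ.card) := by
    rw [card_sigma, Finset.sum_congr rfl (g := fun _ => b + 1 - σ.card)]
    · rw [Finset.sum_const, smul_eq_mul]
    · intro ρ hρ
      obtain ⟨_, h2, h3⟩ := mem_QQ.mp hρ
      have : (ρ \ σ).card + σ.card = ρ.card := card_sdiff_add_card_eq_card h2
      omega
  have h2 : S2.card ≤ (QQ q σ b).card * (N - q * b) ^ q := by
    rw [card_sigma]
    calc ∑ ρ ∈ QQ q σ b, (powersetCard q (univ \ cov ρ)).card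
        ≤ ∑ _ρ ∈ QQ q σ b, (N - q * b) ^ q := by
          refine Finset.sum_le_sum (fun ρ hρ => ?_)
          obtain ⟨g1, g2, g3⟩ := mem_QQ.mp hρ
          rw [card_powersetCard]
          refine (Nat.choose_le_pow _ _).trans (Nat.pow_le_pow_left ?_ q)
          have := card_free g1
          rw [g3] at this
          omega
      _ = _ := by rw [Finset.sum_const, smul_eq_mul]
  rw [← h1]
  refine le_trans ?_ h2
  refine card_le_card_of_injOn (fun a => ⟨a.1.erase a.2, a.2⟩) ?_ ?_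
  · rintro ⟨ρ, B⟩ ha
    simp only [S1, mem_coe, mem_sigma, mem_sdiff] at ha
    obtain ⟨hρ, hB, hBσ⟩ := ha
    obtain ⟨g1, g2, g3⟩ := mem_QQ.mp hρ
    simp only [S2, mem_coe, mem_sigma, mem_powersetCard]
    refine ⟨mem_QQ.mpr ⟨g1.mono (erase_subset _ _), ?_, ?_⟩, ?_, g1.1 B hB⟩
    · intro C hC
      refine mem_erase.mpr ⟨?_, g2 hC⟩
      rintro rfl
      exact hBσ hC
    · rw [card_erase_of_mem hB, g3]; rfl
    · intro x hx
      refine mem_sdiff.mpr ⟨mem_univ _, fun hx' => ?_⟩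
      obtain ⟨C, hC, hxC⟩ := mem_cov.mp hx'
      have := g1.eq_of_mem (mem_erase.mp hC).2 hB hxC hx
      exact (mem_erase.mp hC).1 this
  · rintro ⟨ρ, B⟩ ha ⟨ρ', B'⟩ ha' h
    simp only [S1, mem_coe, mem_sigma, mem_sdiff] at ha ha'
    simp only [Sigma.mk.injEq] at h
    obtain ⟨h3, h4⟩ := h
    have h4' : B = B' := eq_of_heq h4
    subst h4'
    have h5 : ρ = ρ' := by
      rw [← insert_erase ha.2.1, h3, insert_erase ha'.2.1]
    subst h5
    rfl

lemma QQ_add {q : ℕ} (σ : PS N) (b : ℕ) (hb : σ.card ≤ b) (j : ℕ) :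
    (QQ q σ (b + j)).card * (b - σ.card) ^ j ≤ (QQ q σ b).card * ((N - q * b) ^ q) ^ j := by
  induction j with
  | zero => simp
  | succ j ih =>
    have h1 := QQ_succ (q := q) σ (b + j) (by omega)
    have h2 : (N - q * (b + j)) ^ q ≤ (N - q * b) ^ q := by
      apply Nat.pow_le_pow_left
      have : q * b ≤ q * (b + j) := Nat.mul_le_mul_left q (by omega)
      omega
    calc (QQ q σ (b + (j + 1))).card * (b - σ.card) ^ (j + 1)
        = (QQ q σ (b + j + 1)).card * (b - σ.card) * (b - σ.card) ^ j := by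
          rw [← add_assoc, pow_succ]; ring
      _ ≤ (QQ q σ (b + j + 1)).card * (b + j + 1 - σ.card) * (b - σ.card) ^ j := by
          apply Nat.mul_le_mul_right
          apply Nat.mul_le_mul_left
          omega
      _ ≤ (QQ q σ (b + j)).card * (N - q * (b + j)) ^ q * (b - σ.card) ^ j :=
          Nat.mul_le_mul_right _ h1
      _ ≤ (QQ q σ (b + j)).card * (N - q * b) ^ q * (b - σ.card) ^ j := by
          apply Nat.mul_le_mul_right
          exact Nat.mul_le_mul_left _ h2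
      _ = ((QQ q σ (b + j)).card * (b - σ.card) ^ j) * (N - q * b) ^ q := by ring
      _ ≤ ((QQ q σ b).card * ((N - q * b) ^ q) ^ j) * (N - q * b) ^ q :=
          Nat.mul_le_mul_right _ ih
      _ = _ := by rw [pow_succ]; ring

section dich

variable {q k : ℕ} (hq : 1 ≤ q) {ρ0 : PS N} (hρ0 : IsPP q ρ0) {t : ℕ} (φs : Fin t → MF N)
  (hφs : ∀ j, HasT q k (φs j) ρ0 k)

/-- the terms -/
def TmOf (q k : ℕ) (ρ0 : PS N) {t : ℕ} (φs : Fin t → MF N) (τ : PS N) : Prop :=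
  IsPP q τ ∧ ρ0 ⊆ τ ∧ τ.card ≤ ρ0.card + k ∧ ∃ j, W q k (φs j) true τ

include hq hφs in
lemma exists_term {ρ : PS N} (hρ : ρ0 ⊆ ρ) (hW : ¬ W q k (.or t φs) false ρ) :
    ∃ τ, TmOf q k ρ0 φs τ ∧ IsPP q (τ ∪ ρ) := by
  classical
  rw [W_or_false] at hW
  push Not at hW
  obtain ⟨π', h1, h2, h3, j, h4⟩ := hW
  obtain ⟨T, hT1, hT2⟩ := hφs j
  have hdep := MF.dep_lt φs j
  have hk : k + k * (φs j).dep ≤ k * (MF.or t φs).dep := by
    calc k + k * (φs j).dep = k * ((φs j).dep + 1) := by ring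
      _ ≤ _ := Nat.mul_le_mul_left k hdep
  have hroom : q * (π'.card + k + k * (φs j).dep) ≤ N :=
    (Nat.mul_le_mul_left q (by omega)).trans h3
  obtain ⟨y, σ, hy1, hy2, hy3⟩ := T.exists_eval hq k π' hT1 h1
    ((Nat.mul_le_mul_left q (by omega)).trans h3)
  obtain ⟨g1, g2, g3, g4⟩ := hT2 y hy2 (hρ.trans (h2.trans hy1)) σ hy3
  refine ⟨σ, ⟨hy2.mono g2, g1, g3, j, ?_⟩, hy2.mono (union_subset g2 (h2.trans hy1))⟩
  rcases g4 with g4 | g4
  · exact g4
  · exfalso
    have hsub : σ ∪ π' ⊆ y := union_subset g2 hy1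
    refine W_cons (φs j) (hy2.mono hsub) ?_ (W_mono _ h4 subset_union_right (hy2.mono hsub))
      (W_mono _ g4 subset_union_left (hy2.mono hsub))
    refine (Nat.mul_le_mul_left q ?_).trans hroom
    have e1 : (σ ∪ π').card ≤ (σ \ ρ0).card + π'.card := by
      have : σ ∪ π' ⊆ (σ \ ρ0) ∪ π' := by
        intro B hB
        simp only [mem_union, mem_sdiff] at hB ⊢
        rcases hB with hB | hB
        · by_cases hBρ : B ∈ ρ0
          · exact Or.inr (h2 (hρ hBρ))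
          · exact Or.inl ⟨hB, hBρ⟩
        · exact Or.inr hB
      exact (card_le_card this).trans (card_union_le _ _)
    have e2 : (σ \ ρ0).card + ρ0.card = σ.card := card_sdiff_add_card_eq_card g1
    omega

include hq hφs in
/-- either there is a shallow tree or a long code -/
lemma dichotomy {rk : PS N → ℕ} (hrk : Function.Injective rk) : ∀ (D : ℕ) (ρ : PS N),
    IsPP q ρ → ρ0 ⊆ ρ →
    HasT q k (.or t φs) ρ (q * D) ∨
      ∃ j ρ'', D < j ∧ j ≤ D + k ∧ Enc q (TmOf q k ρ0 φs) rk j ρ ρ'' := by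
  classical
  intro D
  induction D using Nat.strong_induction_on with
  | _ D ih =>
    intro ρ hρ hρ0ρ
    by_cases hW1 : W q k (.or t φs) true ρ
    · left
      refine ⟨.leaf ρ, trivial, fun y _ hy σ hσ => ?_⟩
      simp only [DT.eval, Option.some.injEq] at hσ
      subst hσ
      exact ⟨subset_rfl, hy, by omega, Or.inl hW1⟩
    by_cases hW2 : W q k (.or t φs) false ρ
    · left
      refine ⟨.leaf ρ, trivial, fun y _ hy σ hσ => ?_⟩
      simp only [DT.eval, Option.some.injEq] at hσ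
      subst hσ
      exact ⟨subset_rfl, hy, by omega, Or.inr hW2⟩
    -- the first term
    obtain ⟨τ0, hτ0, hτ0'⟩ := exists_term hq φs hφs hρ0ρ hW2
    have hne : (univ.filter (fun τ : PS N => TmOf q k ρ0 φs τ ∧ IsPP q (τ ∪ ρ))).Nonempty :=
      ⟨τ0, by simp only [mem_filter, mem_univ, true_and]; exact ⟨hτ0, hτ0'⟩⟩
    obtain ⟨τ, hτmem, hτmin⟩ := Finset.exists_min_image _ rk hne
    simp only [mem_filter, mem_univ, true_and] at hτmem hτmin
    have hfirst : IsFirst q (TmOf q k ρ0 φs) rk ρ τ :=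
      ⟨hτmem.1, hτmem.2, fun t' h1 h2 => hτmin t' ⟨h1, h2⟩⟩
    obtain ⟨⟨h1, h2, h3, i, h4⟩, h5⟩ := hτmem
    have hδne : (τ \ ρ).Nonempty := by
      rw [Finset.nonempty_iff_ne_empty]
      intro h0
      rw [sdiff_eq_empty_iff_subset] at h0
      exact hW1 (W_or_true.mpr ⟨i, W_mono _ h4 h0 hρ⟩)
    have hδpos := hδne.card_pos
    have hδk : (τ \ ρ).card ≤ k := by
      have e1 : (τ \ ρ0).card + ρ0.card = τ.card := card_sdiff_add_card_eq_card h2
      have e2 : (τ \ ρ).card ≤ (τ \ ρ0).card := card_le_card (sdiff_subset_sdiff subset_rfl hρ0ρ)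
      omega
    have hδPP : IsPP q (τ \ ρ) := h1.mono sdiff_subset
    by_cases hδD : (τ \ ρ).card ≤ D
    · by_cases hall : ∀ π, IsCov q ρ (τ \ ρ) π →
          HasT q k (.or t φs) (ρ ∪ π) (q * (D - (τ \ ρ).card))
      · left
        let Tc : PS N → DT N (PS N) := fun π =>
          if h : HasT q k (.or t φs) (ρ ∪ π) (q * (D - (τ \ ρ).card)) then h.choose else .leaf ∅
        have hTc : ∀ π, (Tc π).HtLe (q * (D - (τ \ ρ).card)) := by
          intro π
          by_cases h : HasT q k (.or t φs) (ρ ∪ π) (q * (D - (τ \ ρ).card))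
          · simp only [Tc, dif_pos h]
            exact h.choose_spec.1
          · simp only [Tc, dif_neg h]
            trivial
        refine ⟨.node (cov (τ \ ρ)) Tc, ⟨q * (D - (τ \ ρ).card), ?_, hTc⟩, ?_⟩
        · rw [card_cov hδPP, ← Nat.mul_add]
          exact Nat.mul_le_mul_left q (by omega)
        · intro y hy hρy σ hσ
          rw [DT.eval] at hσ
          by_cases hc : cov (τ \ ρ) ⊆ cov y
          · rw [if_pos hc] at hσ
            set π := mt (cov (τ \ ρ)) y with hπ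
            have hsub : ρ ∪ π ⊆ y := union_subset hρy (mt_subset _ _)
            have hcov : IsCov q ρ (τ \ ρ) π := by
              refine ⟨hy.mono hsub, ?_, ?_, cov_mt hc⟩
              · refine Finset.disjoint_left.mpr (fun B hB hB' => ?_)
                obtain ⟨_, x, hx, hxB⟩ := mem_mt.mp hB'
                obtain ⟨C, hC, hxC⟩ := mem_cov.mp hx
                have := h5.eq_of_mem (mem_union_right _ hB)
                  (mem_union_left _ (mem_sdiff.mp hC).1) hxB hxC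
                subst this
                exact (mem_sdiff.mp hC).2 hB
              · intro B hB
                obtain ⟨_, x, hx, hxB⟩ := mem_mt.mp hB
                exact Finset.not_disjoint_iff.mpr ⟨x, hxB, hx⟩
            have hH := hall π hcov
            have hTcπ : Tc π = hH.choose := by simp only [Tc, dif_pos hH]
            rw [hTcπ] at hσ
            obtain ⟨g1, g2, g3, g4⟩ := hH.choose_spec.2 y hy hsub σ hσ
            refine ⟨subset_union_left.trans g1, g2, ?_, g4⟩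
            have e1 : π.card ≤ q * (τ \ ρ).card := by
              rw [← card_cov hδPP]
              exact card_mt_le hy _
            have e2 := card_union_le ρ π
            have e3 : q * (τ \ ρ).card + q * (D - (τ \ ρ).card) = q * D := by
              rw [← Nat.mul_add]; congr 1; omega
            omega
          · rw [if_neg hc] at hσ
            exact absurd hσ (by simp)
      · push Not at hall
        obtain ⟨π, hπ1, hπ2⟩ := hall
        right
        rcases ih (D - (τ \ ρ).card) (by omega) (ρ ∪ π) hπ1.1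
          (hρ0ρ.trans subset_union_left) with h | ⟨j, ρ'', g1, g2, g3⟩
        · exact absurd h hπ2
        · exact ⟨j + (τ \ ρ).card, _, by omega, by omega, Enc.cons hfirst hδne hπ1 g3⟩
    · right
      have hcov : IsCov q ρ (τ \ ρ) (τ \ ρ) := by
        refine ⟨?_, disjoint_sdiff, ?_, subset_rfl⟩
        · refine h5.mono ?_
          intro B hB
          rcases mem_union.mp hB with hB | hB
          · exact mem_union_right _ hB
          · exact mem_union_left _ (mem_sdiff.mp hB).1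
        · intro B hB
          have hBq := hδPP.1 B hB
          obtain ⟨x, hx⟩ : B.Nonempty := by rw [← card_pos]; omega
          exact Finset.not_disjoint_iff.mpr ⟨x, hx, mem_cov.mpr ⟨B, hB, hx⟩⟩
      refine ⟨0 + (τ \ ρ).card, _, by omega, by omega,
        Enc.cons hfirst hδne hcov (Enc.nil _)⟩

end dich

open Classical in
/-- the switching lemma -/
theorem switching {q k : ℕ} (hq : 1 ≤ q) (hk : 1 ≤ k) {ρ0 : PS N} {t : ℕ} (φs : Fin t → MF N)
    (hφs : ∀ j, HasT q k (φs j) ρ0 k) (b D : ℕ) (hb : q * b < N) (hb0 : ρ0.card ≤ b)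
    (hX : 16 * (2 * k * ((N - q * b) ^ q) ^ q * (N - q * b) ^ q) ≤ b - ρ0.card) :
    (15 : ℝ) * 16 ^ D *
      (((QQ q ρ0 b).filter (fun ρ => ¬ HasT q k (.or t φs) ρ (q * D))).card : ℝ) ≤
      ((QQ q ρ0 b).card : ℝ) := by
  classical
  set n' : ℕ := N - q * b with hn'
  have hn'1 : 1 ≤ n' := by omega
  have hn'r : (1 : ℝ) ≤ (n' : ℝ) := by exact_mod_cast hn'1
  let rk : PS N → ℕ := fun ρ => (Fintype.equivFin (PS N) ρ).val
  have hrk : Function.Injective rk := by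
    intro a b h
    exact (Fintype.equivFin (PS N)).injective (Fin.ext h)
  set Bd : ℝ := 2 * k * ((n' : ℝ) ^ q) ^ q with hBd
  set M0 : ℝ := (n' : ℝ) ^ q with hM0
  set L : ℝ := ((b - ρ0.card : ℕ) : ℝ) with hL
  have hkr : (1 : ℝ) ≤ k := by exact_mod_cast hk
  have hM01 : 1 ≤ M0 := one_le_pow₀ hn'r
  have hBd1 : 1 ≤ Bd := by
    have : (1 : ℝ) ≤ ((n' : ℝ) ^ q) ^ q := one_le_pow₀ hM01
    rw [hBd]; nlinarith
  have hXL : 16 * (Bd * M0) ≤ L := by
    have h1 : ((16 * (2 * k * (n' ^ q) ^ q * n' ^ q) : ℕ) : ℝ) ≤ ((b - ρ0.card : ℕ) : ℝ) := by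
      exact_mod_cast hX
    push_cast at h1
    rw [hBd, hM0, hL]
    push_cast
    linarith
  have hL0 : 0 < L := by nlinarith
  -- the bad ones have codes
  have hsub : (QQ q ρ0 b).filter (fun ρ => ¬ HasT q k (.or t φs) ρ (q * D)) ⊆
      (Finset.Ioc D (D + k)).biUnion (fun j => (QQ q ρ0 (b + j)).biUnion (fun ρ'' =>
        univ.filter (fun ρ : PS N => IsPP q ρ ∧ ρ0 ⊆ ρ ∧ b ≤ ρ.card ∧
          Enc q (TmOf q k ρ0 φs) rk j ρ ρ''))) := by
    intro ρ hρ
    obtain ⟨h1, h2⟩ := mem_filter.mp hρ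
    obtain ⟨h3, h4, h5⟩ := mem_QQ.mp h1
    rcases dichotomy hq φs hφs hrk D ρ h3 h4 with h | ⟨j, ρ'', g1, g2, g3⟩
    · exact absurd h h2
    · obtain ⟨g4, g5, g6⟩ := g3.props hq h3
      rw [mem_biUnion]
      refine ⟨j, by rw [mem_Ioc]; exact ⟨g1, g2⟩, ?_⟩
      rw [mem_biUnion]
      refine ⟨ρ'', mem_QQ.mpr ⟨g5, h4.trans g4, by omega⟩, ?_⟩
      simp only [mem_filter, mem_univ, true_and]
      exact ⟨h3, h4, h5.ge, g3⟩
  have hcard : (((QQ q ρ0 b).filter (fun ρ => ¬ HasT q k (.or t φs) ρ (q * D))).card : ℝ) ≤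
      ∑ j ∈ Finset.Ioc D (D + k), ((QQ q ρ0 (b + j)).card : ℝ) * Bd ^ j := by
    have h1 := (card_le_card hsub).trans card_biUnion_le
    refine le_trans (b := ((∑ j ∈ Finset.Ioc D (D + k), ((QQ q ρ0 (b + j)).biUnion (fun ρ'' =>
        univ.filter (fun ρ : PS N => IsPP q ρ ∧ ρ0 ⊆ ρ ∧ b ≤ ρ.card ∧
          Enc q (TmOf q k ρ0 φs) rk j ρ ρ''))).card : ℕ) : ℝ)) (by exact_mod_cast h1) ?_
    push_cast
    refine Finset.sum_le_sum (fun j _ => ?_)
    refine le_trans (b := ∑ ρ'' ∈ QQ q ρ0 (b + j),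
      ((univ.filter (fun ρ : PS N => IsPP q ρ ∧ ρ0 ⊆ ρ ∧ b ≤ ρ.card ∧
          Enc q (TmOf q k ρ0 φs) rk j ρ ρ'')).card : ℝ)) (by exact_mod_cast card_biUnion_le) ?_
    rw [← nsmul_eq_mul, ← Finset.sum_const]
    refine Finset.sum_le_sum (fun ρ'' _ => ?_)
    exact card_enc hq hrk hk (fun t ht => ⟨ht.2.1, ht.2.2.1⟩) b hb j ρ''
  have hterm : ∀ j, ((QQ q ρ0 (b + j)).card : ℝ) * Bd ^ j ≤
      ((QQ q ρ0 b).card : ℝ) * (1 / 16) ^ j := by
    intro j
    have h1 := QQ_add (q := q) ρ0 b hb0 j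
    have h2 : ((QQ q ρ0 (b + j)).card : ℝ) * L ^ j ≤ ((QQ q ρ0 b).card : ℝ) * M0 ^ j := by
      have h3 : (((QQ q ρ0 (b + j)).card * (b - ρ0.card) ^ j : ℕ) : ℝ) ≤
          (((QQ q ρ0 b).card * ((N - q * b) ^ q) ^ j : ℕ) : ℝ) := by exact_mod_cast h1
      rw [← hn'] at h3
      push_cast at h3
      exact h3
    have h3 : (Bd * M0 / L) ^ j ≤ (1 / 16) ^ j := by
      apply pow_le_pow_left₀ (by positivity)
      rw [div_le_iff₀ hL0]
      linarith
    calc ((QQ q ρ0 (b + j)).card : ℝ) * Bd ^ j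
        = (((QQ q ρ0 (b + j)).card : ℝ) * L ^ j) * (Bd / L) ^ j := by
          rw [div_pow]; field_simp
      _ ≤ (((QQ q ρ0 b).card : ℝ) * M0 ^ j) * (Bd / L) ^ j :=
          mul_le_mul_of_nonneg_right h2 (by positivity)
      _ = ((QQ q ρ0 b).card : ℝ) * (Bd * M0 / L) ^ j := by
          rw [mul_assoc, ← mul_pow]; congr 2; ring
      _ ≤ _ := mul_le_mul_of_nonneg_left h3 (Nat.cast_nonneg _)
  have hgeom : ∑ j ∈ Finset.Ioc D (D + k), (1 / 16 : ℝ) ^ j ≤ (1 / 15) * (1 / 16) ^ D := by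
    have h1 : ∀ k : ℕ, ∑ j ∈ Finset.Ioc D (D + k), (1 / 16 : ℝ) ^ j =
        (1 / 15) * (1 / 16) ^ D - (1 / 15) * (1 / 16) ^ (D + k) := by
      intro k
      induction k with
      | zero => simp
      | succ k ih =>
        rw [← Nat.add_assoc, Finset.sum_Ioc_succ_top (by omega), ih, pow_succ]
        ring
    rw [h1]
    have : (0 : ℝ) ≤ (1 / 15) * (1 / 16) ^ (D + k) := by positivity
    linarith
  have hfin : (((QQ q ρ0 b).filter (fun ρ => ¬ HasT q k (.or t φs) ρ (q * D))).card : ℝ) ≤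
      ((QQ q ρ0 b).card : ℝ) * ((1 / 15) * (1 / 16) ^ D) := by
    refine hcard.trans ?_
    refine (Finset.sum_le_sum (fun j _ => hterm j)).trans ?_
    rw [← Finset.mul_sum]
    exact mul_le_mul_of_nonneg_left hgeom (Nat.cast_nonneg _)
  have h16 : (0 : ℝ) < 16 ^ D := by positivity
  calc (15 : ℝ) * 16 ^ D *
      (((QQ q ρ0 b).filter (fun ρ => ¬ HasT q k (.or t φs) ρ (q * D))).card : ℝ)
      ≤ 15 * 16 ^ D * (((QQ q ρ0 b).card : ℝ) * ((1 / 15) * (1 / 16) ^ D)) :=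
        mul_le_mul_of_nonneg_left hfin (by positivity)
    _ = ((QQ q ρ0 b).card : ℝ) * ((16 : ℝ) ^ D * (1 / 16) ^ D) := by ring
    _ = _ := by rw [← mul_pow]; norm_num

/-- one step: all disjunctions of the family get shallow trees -/
theorem step {q k : ℕ} (hq : 1 ≤ q) (hk : 1 ≤ k) {ρ0 : PS N} (hρ0 : IsPP q ρ0)
    (𝓜 : Finset (MF N)) (b D : ℕ) (hkD : q * D = k) (hb : q * b < N) (hb0 : ρ0.card ≤ b)
    (hX : 16 * (2 * k * ((N - q * b) ^ q) ^ q * (N - q * b) ^ q) ≤ b - ρ0.card)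
    (hM : 𝓜.card ≤ 16 ^ D)
    (h𝓜 : ∀ φ ∈ 𝓜, ∃ (t : ℕ) (φs : Fin t → MF N), φ = .or t φs ∧
      ∀ j, HasT q k (φs j) ρ0 k) :
    ∃ ρ : PS N, IsPP q ρ ∧ ρ0 ⊆ ρ ∧ ρ.card = b ∧ ∀ φ ∈ 𝓜, HasT q k φ ρ k := by
  classical
  have hne : (QQ q ρ0 b).Nonempty := by
    have h1 : ρ0.card + (b - ρ0.card) = b := by omega
    have := QQ_nonempty hq hρ0 (b - ρ0.card) (by rw [h1]; exact hb.le)
    rwa [h1] at this
  by_contra hcon
  push Not at hcon
  have h1 : QQ q ρ0 b ⊆ 𝓜.biUnion (fun φ => (QQ q ρ0 b).filter (fun ρ => ¬ HasT q k φ ρ k)) := by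
    intro ρ hρ
    obtain ⟨g1, g2, g3⟩ := mem_QQ.mp hρ
    obtain ⟨φ, hφ, hφ'⟩ := hcon ρ g1 g2 g3
    rw [mem_biUnion]
    exact ⟨φ, hφ, mem_filter.mpr ⟨hρ, hφ'⟩⟩
  have h2 : ((QQ q ρ0 b).card : ℝ) ≤
      ∑ φ ∈ 𝓜, (((QQ q ρ0 b).filter (fun ρ => ¬ HasT q k φ ρ k)).card : ℝ) := by
    exact_mod_cast (card_le_card h1).trans card_biUnion_le
  have h3 : ∀ φ ∈ 𝓜, (((QQ q ρ0 b).filter (fun ρ => ¬ HasT q k φ ρ k)).card : ℝ) ≤
      ((QQ q ρ0 b).card : ℝ) / (15 * 16 ^ D) := by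
    intro φ hφ
    obtain ⟨t, φs, rfl, hφs⟩ := h𝓜 φ hφ
    have h4 := switching hq hk φs hφs b D hb hb0 hX
    rw [hkD] at h4
    rw [le_div_iff₀ (by positivity)]
    linarith
  have h4 := h2.trans (Finset.sum_le_sum h3)
  rw [Finset.sum_const, nsmul_eq_mul] at h4
  have hpos : (0 : ℝ) < ((QQ q ρ0 b).card : ℝ) := by exact_mod_cast hne.card_pos
  have hM' : (𝓜.card : ℝ) ≤ 16 ^ D := by exact_mod_cast hM
  have h5 : (𝓜.card : ℝ) * (((QQ q ρ0 b).card : ℝ) / (15 * 16 ^ D)) ≤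
      16 ^ D * (((QQ q ρ0 b).card : ℝ) / (15 * 16 ^ D)) :=
    mul_le_mul_of_nonneg_right hM' (by positivity)
  have h6 : (16 : ℝ) ^ D * (((QQ q ρ0 b).card : ℝ) / (15 * 16 ^ D)) =
      ((QQ q ρ0 b).card : ℝ) / 15 := by
    field_simp
  rw [h6] at h5
  linarith

end Pool.Agent.Helper600R2.Cnt
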